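import Pool.Agent.Lib.MP_4b5f87_an.Functionals

set_option autoImplicit false
set_option linter.unusedSectionVars false
set_option linter.deprecated false

/-!
The algebra generated by one generator and the coefficients, and its commutant.
-/

namespace Pool.Agent.Lib.MP_4b5f87_an

open scoped ENNReal

noncomputable section

section alg

variable {G : Type*} [NormedAddCommGroup G] [InnerProductSpace ℂ G] [CompleteSpace G]
variable {D : Type*} [CStarAlgebra D] (d : Dat D) (π : D →⋆ₐ[ℂ] (G →L[ℂ] G))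

lemma PiR_mul_gen_pow (b : Fin 2) (m : ℕ) (a : Alg D) :
    PiR π a * gen d π b ^ m = gen d π b ^ m * PiR π ((endo d b)^[m] a) := by
  induction m generalizing a with
  | zero => simp
  | succ m ih =>
    rw [pow_succ', ← mul_assoc, PiR_mul_gen, mul_assoc, ih, ← mul_assoc, Function.iterate_succ,
      Function.comp_apply]

/-- the span of the monomials -/
def mspan (b : Fin 2) : Submodule ℂ (L2 Idx G →L[ℂ] L2 Idx G) :=
  Submodule.span ℂ (Set.range (fun p : ℕ × Alg D => gen d π b ^ p.1 * PiR π p.2))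

lemma mspan_mem (b : Fin 2) (k : ℕ) (a : Alg D) : gen d π b ^ k * PiR π a ∈ mspan d π b :=
  Submodule.subset_span ⟨(k, a), rfl⟩

/-- the span of the monomials as a subalgebra -/
def mon (b : Fin 2) : Subalgebra ℂ (L2 Idx G →L[ℂ] L2 Idx G) :=
  (mspan d π b).toSubalgebra (by
    have := mspan_mem d π b 0 1
    simpa using this) (by
    intro x y hx hy
    have h := Submodule.mul_mem_mul hx hy
    rw [mspan, Submodule.span_mul_span] at h
    refine Submodule.span_mono ?_ h
    rintro _ ⟨_, ⟨⟨k, a⟩, rfl⟩, _, ⟨⟨m, a'⟩, rfl⟩, rfl⟩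
    refine ⟨(k + m, (endo d b)^[m] a * a'), ?_⟩
    simp only
    rw [map_mul, pow_add, mul_assoc, ← mul_assoc (gen d π b ^ m), ← PiR_mul_gen_pow]
    simp only [mul_assoc])

lemma mem_mon {b : Fin 2} {x : L2 Idx G →L[ℂ] L2 Idx G} : x ∈ mon d π b ↔ x ∈ mspan d π b :=
  Submodule.mem_toSubalgebra

/-- the closed algebra generated by the coefficients and one generator -/
def algb (b : Fin 2) : Subalgebra ℂ (L2 Idx G →L[ℂ] L2 Idx G) := (mon d π b).topologicalClosure

lemma isClosed_algb (b : Fin 2) : IsClosed (algb d π b : Set (L2 Idx G →L[ℂ] L2 Idx G)) :=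
  Subalgebra.isClosed_topologicalClosure _

lemma coe_algb (b : Fin 2) : (algb d π b : Set (L2 Idx G →L[ℂ] L2 Idx G)) =
    closure (mspan d π b : Set (L2 Idx G →L[ℂ] L2 Idx G)) := by
  rw [algb, Subalgebra.topologicalClosure_coe]
  rfl

lemma mspan_le_algb {b : Fin 2} {x : L2 Idx G →L[ℂ] L2 Idx G} (h : x ∈ mspan d π b) :
    x ∈ algb d π b := by
  have : x ∈ (algb d π b : Set (L2 Idx G →L[ℂ] L2 Idx G)) := by
    rw [coe_algb]
    exact subset_closure h
  exact this

lemma PiR_mem (b : Fin 2) (a : Alg D) : PiR π a ∈ algb d π b := by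
  refine mspan_le_algb d π ?_
  have := mspan_mem d π b 0 a
  simpa using this

lemma gen_mem (b : Fin 2) : gen d π b ∈ algb d π b := by
  refine mspan_le_algb d π ?_
  have := mspan_mem d π b 1 1
  simpa using this

lemma algb_le {b : Fin 2} {S : Subalgebra ℂ (L2 Idx G →L[ℂ] L2 Idx G)}
    (hS : IsClosed (S : Set (L2 Idx G →L[ℂ] L2 Idx G))) (h1 : ∀ a, PiR π a ∈ S)
    (h2 : gen d π b ∈ S) : algb d π b ≤ S := by
  refine Subalgebra.topologicalClosure_minimal ?_ hS
  intro x hx
  rw [mem_mon] at hx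
  have : mspan d π b ≤ Subalgebra.toSubmodule S := by
    refine Submodule.span_le.2 ?_
    rintro _ ⟨⟨k, a⟩, rfl⟩
    exact S.mul_mem (S.pow_mem h2 k) (h1 a)
  exact this hx

/-- induction principle -/
lemma algb_induction {b : Fin 2} {p : Set (L2 Idx G →L[ℂ] L2 Idx G)} (hp : IsClosed p)
    (h0 : ∀ x ∈ mspan d π b, x ∈ p) {x : L2 Idx G →L[ℂ] L2 Idx G} (hx : x ∈ algb d π b) :
    x ∈ p := by
  have : x ∈ (algb d π b : Set (L2 Idx G →L[ℂ] L2 Idx G)) := hx
  rw [coe_algb] at this
  exact closure_minimal h0 hp this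

/-! ### the shift commuting with everything -/

/-- source of the commuting shift -/
def gR : Idx → Option Idx
  | .vac _ 0 => none
  | .vac a (n + 1) => some (.vac a n)
  | .one _ _ _ 0 => none
  | .one j l m (n + 1) => some (.one j l m n)

lemma gR_pinj : PInj gR := by
  intro k k' i h h'
  rcases k with ⟨a, n⟩ | ⟨j, l, m, n⟩ <;> rcases k' with ⟨a', n'⟩ | ⟨j', l', m', n'⟩
  · rcases n with _ | n <;> rcases n' with _ | n' <;> simp [gR] at h h'
    cases (h.trans h'.symm); rfl
  · rcases n with _ | n <;> rcases n' with _ | n' <;> simp [gR] at h h'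
    cases (h.trans h'.symm)
  · rcases n with _ | n <;> rcases n' with _ | n' <;> simp [gR] at h h'
    cases (h.trans h'.symm)
  · rcases n with _ | n <;> rcases n' with _ | n' <;> simp [gR] at h h'
    cases (h.trans h'.symm); rfl

/-- the commuting shift -/
def Rop : L2 Idx G →L[ℂ] L2 Idx G :=
  bop gR gR_pinj (fun _ => (1 : G →L[ℂ] G)) 1 zero_le_one (fun _ => ContinuousLinearMap.norm_id_le)

lemma Rop_vac_zero (ξ : L2 Idx G) (a : Option (Fin 2)) : Rop ξ (.vac a 0) = 0 := rfl
lemma Rop_vac_succ (ξ : L2 Idx G) (a : Option (Fin 2)) (n : ℕ) :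
    Rop ξ (.vac a (n + 1)) = ξ (.vac a n) := rfl
lemma Rop_one_zero (ξ : L2 Idx G) (j l : Fin 2) (m : ℕ) : Rop ξ (.one j l m 0) = 0 := rfl
lemma Rop_one_succ (ξ : L2 Idx G) (j l : Fin 2) (m n : ℕ) :
    Rop ξ (.one j l m (n + 1)) = ξ (.one j l m n) := rfl

lemma Rop_comm_gen (b : Fin 2) : Rop * gen d π b = gen d π b * Rop := by
  ext ξ k
  simp only [ContinuousLinearMap.mul_apply]
  rcases k with ⟨a, n⟩ | ⟨j, l, m, n⟩
  · rcases n with _ | n
    · rw [Rop_vac_zero, gen_vac_zero, Rop_vac_zero, map_zero, smul_zero, neg_zero]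
    · rw [Rop_vac_succ, gen_vac_succ, Rop_vac_succ]
      rcases n with _ | n
      · rw [gen_vac_zero, Rop_vac_zero, map_zero, add_zero]
      · rw [gen_vac_succ, Rop_vac_succ]
  · rcases m with _ | m
    · rcases n with _ | n
      · rw [Rop_one_zero, gen_one_zero, Rop_one_zero, Rop_vac_zero, map_zero, smul_zero, add_zero]
      · rw [Rop_one_succ, gen_one_zero, gen_one_zero, Rop_one_succ, Rop_vac_succ]
    · rcases n with _ | n
      · rw [Rop_one_zero, gen_one_succ, Rop_one_zero, Rop_one_zero, smul_zero, smul_zero, add_zero]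
      · rw [Rop_one_succ, gen_one_succ, gen_one_succ, Rop_one_succ, Rop_one_succ]

lemma Rop_comm_PiR (a : Alg D) : Rop * PiR π a = PiR π a * Rop := by
  ext ξ k
  simp only [ContinuousLinearMap.mul_apply]
  rcases k with ⟨o, n⟩ | ⟨j, l, m, n⟩
  · rcases n with _ | n
    · rw [Rop_vac_zero, PiR_eq, dg_apply, Rop_vac_zero, map_zero]
    · rw [Rop_vac_succ, PiR_eq, dg_apply, dg_apply, Rop_vac_succ]
      rfl
  · rcases n with _ | n
    · rw [Rop_one_zero, PiR_one, Rop_one_zero, smul_zero]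
    · rw [Rop_one_succ, PiR_one, PiR_one, Rop_one_succ]

lemma Rop_sg (a : Option (Fin 2)) (n : ℕ) (g : G) :
    Rop (sg (.vac a n) g) = sg (.vac a (n + 1)) g := by
  ext k
  by_cases h : k = .vac a (n + 1)
  · subst h
    rw [Rop_vac_succ, sg_apply_self, sg_apply_self]
  · rw [sg_apply_ne h]
    rcases k with ⟨o, m⟩ | ⟨j, l, m, m'⟩
    · rcases m with _ | m
      · rw [Rop_vac_zero]
      · rw [Rop_vac_succ, sg_apply_ne]
        intro h'
        apply h
        simp only [Idx.vac.injEq] at h' ⊢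
        exact ⟨h'.1, by rw [h'.2]⟩
    · rcases m' with _ | m'
      · rw [Rop_one_zero]
      · rw [Rop_one_succ, sg_apply_ne]
        simp

/-! ### the intertwiners from level zero to level one -/

/-- source of the level-one shift -/
def gB : Idx → Option Idx
  | .vac _ _ => none
  | .one _ _ 0 _ => none
  | .one j l (m + 1) n => some (.one j l m n)

lemma gB_pinj : PInj gB := by
  intro k k' i h h'
  rcases k with ⟨a, n⟩ | ⟨j, l, m, n⟩ <;> rcases k' with ⟨a', n'⟩ | ⟨j', l', m', n'⟩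
  · simp [gB] at h
  · simp [gB] at h
  · simp [gB] at h'
  · rcases m with _ | m <;> rcases m' with _ | m' <;> simp [gB] at h h'
    cases (h.trans h'.symm); rfl

/-- diagonal part of `Bop` -/
def zB : Idx → ℂ
  | .vac _ _ => 0
  | .one j _ _ _ => kap j

lemma norm_zB_le (k : Idx) : ‖zB k‖ ≤ 1 / 2 := by
  rcases k with ⟨a, n⟩ | ⟨j, l, m, n⟩
  · simp [zB]
  · exact (norm_kap j).le

/-- the coordinate operator minus its centre, on level one -/
def Bop : L2 Idx G →L[ℂ] L2 Idx G :=
  dscal zB (1 / 2) (by norm_num) norm_zB_le +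
    bop gB gB_pinj (fun _ => (1 / 8 : ℂ) • (1 : G →L[ℂ] G)) (1 / 8) (by norm_num)
      (fun _ => norm_smul_one_le _ (by norm_num))

lemma norm_Bop_le : ‖(Bop : L2 Idx G →L[ℂ] L2 Idx G)‖ ≤ 5 / 8 := by
  refine (norm_add_le _ _).trans ?_
  have h1 := norm_dscal_le (G := G) zB (1 / 2) (by norm_num) norm_zB_le
  have h2 := norm_bop_le gB gB_pinj (fun _ => (1 / 8 : ℂ) • (1 : G →L[ℂ] G)) (1 / 8) (by norm_num)
      (fun _ => norm_smul_one_le _ (by norm_num))
  linarith

lemma Bop_vac (ξ : L2 Idx G) (a : Option (Fin 2)) (n : ℕ) : Bop ξ (.vac a n) = 0 := by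
  have : Bop ξ (.vac a n) = (0 : ℂ) • ξ (.vac a n) + 0 := rfl
  rw [this, zero_smul, add_zero]
lemma Bop_one_zero (ξ : L2 Idx G) (j l : Fin 2) (n : ℕ) :
    Bop ξ (.one j l 0 n) = kap j • ξ (.one j l 0 n) := by
  have : Bop ξ (.one j l 0 n) = kap j • ξ (.one j l 0 n) + 0 := rfl
  rw [this, add_zero]
lemma Bop_one_succ (ξ : L2 Idx G) (j l : Fin 2) (m n : ℕ) :
    Bop ξ (.one j l (m + 1) n) = kap j • ξ (.one j l (m + 1) n) + (1 / 8 : ℂ) • ξ (.one j l m n) :=
  rfl

lemma kap_sub (j b : Fin 2) : kap j - kap b = bv j - bv b := by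
  unfold kap
  ring

lemma gen_apply_of_vac (b : Fin 2) {ξ : L2 Idx G} (h : ∀ a n, ξ (.vac a n) = 0) :
    gen d π b ξ = Bop ξ - kap b • ξ := by
  ext k
  rw [lp.coeFn_sub, Pi.sub_apply, lp.coeFn_smul, Pi.smul_apply]
  rcases k with ⟨a, n⟩ | ⟨j, l, m, n⟩
  · rw [Bop_vac, h, smul_zero, sub_zero]
    rcases n with _ | n
    · rw [gen_vac_zero, h, map_zero, smul_zero, neg_zero]
    · rw [gen_vac_succ, h, h, map_zero, smul_zero, neg_zero, add_zero]
  · rcases m with _ | m
    · rw [gen_one_zero, h, map_zero, add_zero, Bop_one_zero, ← sub_smul, kap_sub]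
    · rw [gen_one_succ, Bop_one_succ, ← kap_sub, sub_smul]
      abel

lemma PiR_Bop (a : Alg D) : PiR π a * Bop = Bop * PiR π a := by
  ext ξ k
  simp only [ContinuousLinearMap.mul_apply]
  rcases k with ⟨o, n⟩ | ⟨j, l, m, n⟩
  · rw [Bop_vac, PiR_eq, dg_apply, Bop_vac, map_zero]
  · rcases m with _ | m
    · rw [PiR_one, Bop_one_zero, Bop_one_zero, PiR_one, smul_comm]
    · rw [PiR_one, Bop_one_succ, Bop_one_succ, PiR_one, PiR_one, smul_add, smul_comm,
        smul_comm (1 / 8 : ℂ)]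

/-- elementary operator from level zero to level one -/
def theta (j l : Fin 2) (m n k : ℕ) : L2 Idx G →L[ℂ] L2 Idx G :=
  sg (.one j l m n) ∘L ev (.vac (some l) k)

lemma theta_apply (j l : Fin 2) (m n k : ℕ) (ξ : L2 Idx G) :
    theta j l m n k ξ = sg (.one j l m n) (ξ (.vac (some l) k)) := rfl

lemma norm_theta_le (j l : Fin 2) (m n k : ℕ) :
    ‖(theta j l m n k : L2 Idx G →L[ℂ] L2 Idx G)‖ ≤ 1 := by
  refine ContinuousLinearMap.opNorm_le_bound _ zero_le_one (fun ξ => ?_)
  rw [theta_apply, norm_sg, one_mul]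
  exact norm_coe_le _ _

/-- the terms of the intertwiner -/
def tt (j l : Fin 2) (m n k : ℕ) : L2 Idx G →L[ℂ] L2 Idx G := Bop ^ k * theta j l m n k

lemma tt_summable (j l : Fin 2) (m n : ℕ) :
    Summable (fun k => (tt j l m n k : L2 Idx G →L[ℂ] L2 Idx G)) := by
  refine Summable.of_norm_bounded (E := L2 Idx G →L[ℂ] L2 Idx G)
    (g := fun k => (5 / 8 : ℝ) ^ k) (summable_geometric_of_lt_one (by norm_num) (by norm_num))
    (fun k => ?_)
  refine (norm_mul_le _ _).trans ?_
  calc ‖(Bop : L2 Idx G →L[ℂ] L2 Idx G) ^ k‖ * ‖(theta j l m n k : L2 Idx G →L[ℂ] L2 Idx G)‖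
      ≤ (5 / 8 : ℝ) ^ k * 1 := by
        refine mul_le_mul ?_ (norm_theta_le _ _ _ _ _) (norm_nonneg _) (by positivity)
        induction k with
        | zero =>
          rw [pow_zero, pow_zero]
          exact ContinuousLinearMap.norm_id_le
        | succ k ih =>
          rw [pow_succ, pow_succ]
          refine (norm_mul_le _ _).trans ?_
          exact mul_le_mul ih norm_Bop_le (norm_nonneg _) (by positivity)
    _ = (5 / 8 : ℝ) ^ k := mul_one _

/-- the intertwiner -/
def Top (j l : Fin 2) (m n : ℕ) : L2 Idx G →L[ℂ] L2 Idx G := ∑' k, tt j l m n k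

lemma Top_hasSum (j l : Fin 2) (m n : ℕ) :
    HasSum (fun k => (tt j l m n k : L2 Idx G →L[ℂ] L2 Idx G)) (Top j l m n) :=
  (tt_summable j l m n).hasSum

lemma Top_hasSum_apply (j l : Fin 2) (m n : ℕ) (ξ : L2 Idx G) :
    HasSum (fun k => tt j l m n k ξ) (Top j l m n ξ) :=
  (Top_hasSum j l m n).mapL (ContinuousLinearMap.apply ℂ (L2 Idx G) ξ)

lemma tt_vac (j l : Fin 2) (m n k : ℕ) (ξ : L2 Idx G) (a : Option (Fin 2)) (n' : ℕ) :
    tt j l m n k ξ (.vac a n') = 0 := by
  rcases k with _ | k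
  · rw [tt, pow_zero, one_mul, theta_apply, sg_apply_ne]
    simp
  · rw [tt, pow_succ', mul_assoc, ContinuousLinearMap.mul_apply, Bop_vac]

lemma Top_vac (j l : Fin 2) (m n : ℕ) (ξ : L2 Idx G) (a : Option (Fin 2)) (n' : ℕ) :
    Top j l m n ξ (.vac a n') = 0 := by
  have h := (Top_hasSum_apply j l m n ξ).mapL (ev (.vac a n') : L2 Idx G →L[ℂ] G)
  have h2 : (fun k => (ev (.vac a n') : L2 Idx G →L[ℂ] G) (tt j l m n k ξ)) = fun _ => 0 := by
    ext k
    rw [ev_apply, tt_vac]
  rw [h2] at h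
  exact h.unique hasSum_zero

lemma gen_mul_Top (b : Fin 2) (j l : Fin 2) (m n : ℕ) :
    gen d π b * Top j l m n = Bop * Top j l m n - kap b • Top j l m n := by
  ext1 ξ
  rw [ContinuousLinearMap.mul_apply, gen_apply_of_vac d π b (Top_vac j l m n ξ)]
  rfl

lemma theta_mul_gen_zero (b : Fin 2) (j l : Fin 2) (m n : ℕ) :
    theta j l m n 0 * gen d π b = -(kap b • theta j l m n 0) := by
  ext1 ξ
  rw [ContinuousLinearMap.mul_apply, theta_apply, gen_vac_zero, vsT_some, map_neg, map_smul]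
  rfl

lemma theta_mul_gen_succ (b : Fin 2) (j l : Fin 2) (m n k : ℕ) :
    theta j l m n (k + 1) * gen d π b = -(kap b • theta j l m n (k + 1)) + theta j l m n k := by
  ext1 ξ
  rw [ContinuousLinearMap.mul_apply, theta_apply, gen_vac_succ, vsT_some, map_add, map_neg,
    map_smul]
  rfl

lemma Top_mul_gen (b : Fin 2) (j l : Fin 2) (m n : ℕ) :
    Top j l m n * gen d π b = Bop * Top j l m n - kap b • Top j l m n := by
  have hT := Top_hasSum (G := G) j l m n
  have h1 : HasSum (fun k => tt j l m n k * gen d π b) (Top j l m n * gen d π b) :=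
    hT.mul_right _
  have h2 : HasSum (fun k => (tt j l m n (k + 1) : L2 Idx G →L[ℂ] L2 Idx G))
      (Top j l m n - tt j l m n 0) := by
    have := (hasSum_nat_add_iff' 1).2 hT
    simpa using this
  have h3 : HasSum (fun k => tt j l m n (k + 1) * gen d π b)
      (-(kap b • (Top j l m n - tt j l m n 0)) + Bop * Top j l m n) := by
    have h4 : ∀ k, tt j l m n (k + 1) * gen d π b =
        -(kap b • tt j l m n (k + 1)) + Bop * tt j l m n k := by
      intro k
      rw [tt, mul_assoc, theta_mul_gen_succ, mul_add, mul_neg, mul_smul_comm, tt, pow_succ',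
        mul_assoc, mul_assoc]
    simp_rw [h4]
    exact ((h2.const_smul (kap b)).neg).add (hT.mul_left Bop)
  have h5 := HasSum.zero_add (f := fun k => tt j l m n k * gen d π b) h3
  have h6 : tt j l m n 0 * gen d π b = -(kap b • tt j l m n 0) := by
    rw [tt, pow_zero, one_mul, theta_mul_gen_zero]
  rw [h6] at h5
  rw [h1.unique h5, smul_sub]
  abel

lemma Top_comm_gen (b : Fin 2) (j l : Fin 2) (m n : ℕ) :
    Top j l m n * gen d π b = gen d π b * Top j l m n := by
  rw [Top_mul_gen, gen_mul_Top]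

lemma theta_PiR (a : Alg D) (j l : Fin 2) (m n k : ℕ) :
    theta j l m n k * PiR π a = a.2 l • theta j l m n k := by
  ext1 ξ
  rw [ContinuousLinearMap.mul_apply, theta_apply, PiR_vac_some, map_smul]
  rfl

lemma PiR_theta (a : Alg D) (j l : Fin 2) (m n k : ℕ) :
    PiR π a * theta j l m n k = a.2 l • theta j l m n k := by
  ext ξ i
  rw [ContinuousLinearMap.mul_apply, theta_apply]
  have h : (a.2 l • theta j l m n k) ξ i =
    a.2 l • (sg (.one j l m n) (ξ (.vac (some l) k)) : L2 Idx G) i := rfl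
  rw [h]
  by_cases hi : i = .one j l m n
  · subst hi
    rw [PiR_one]
  · rw [PiR_eq, dg_apply, sg_apply_ne hi, map_zero, smul_zero]

lemma PiR_Bop_pow (a : Alg D) (k : ℕ) : PiR π a * Bop ^ k = Bop ^ k * PiR π a := by
  induction k with
  | zero => simp
  | succ k ih => rw [pow_succ, ← mul_assoc, ih, mul_assoc, PiR_Bop, mul_assoc]

lemma Top_comm_PiR (a : Alg D) (j l : Fin 2) (m n : ℕ) :
    Top j l m n * PiR π a = PiR π a * Top j l m n := by
  have hT := Top_hasSum (G := G) j l m n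
  refine (hT.mul_right (PiR π a)).unique ?_
  convert hT.mul_left (PiR π a) using 2 with k
  rw [tt, mul_assoc, theta_PiR, ← mul_assoc, PiR_Bop_pow, mul_assoc, PiR_theta]

lemma Top_sg (j l : Fin 2) (m n : ℕ) (g : G) :
    Top j l m n (sg (.vac (some l) 0) g) = sg (.one j l m n) g := by
  refine (Top_hasSum_apply j l m n _).unique ?_
  have := hasSum_single (f := fun k => (tt j l m n k : L2 Idx G →L[ℂ] L2 Idx G)
    (sg (.vac (some l) 0) g)) 0 ?_
  · have h0 : (tt j l m n 0 : L2 Idx G →L[ℂ] L2 Idx G) (sg (.vac (some l) 0) g) =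
      sg (.one j l m n) g := by
      rw [tt, pow_zero, one_mul, theta_apply, sg_apply_self]
    rw [h0] at this
    exact this
  · intro k hk
    rw [tt, ContinuousLinearMap.mul_apply, theta_apply, sg_apply_ne, map_zero, map_zero]
    intro h
    simp only [Idx.vac.injEq, true_and] at h
    exact hk h

/-! ### separation -/

lemma comm_Rop {b : Fin 2} {x : L2 Idx G →L[ℂ] L2 Idx G} (hx : x ∈ algb d π b) :
    Rop * x = x * Rop := by
  have : algb d π b ≤ Subalgebra.centralizer ℂ {(Rop : L2 Idx G →L[ℂ] L2 Idx G)} := by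
    refine algb_le d π (Set.isClosed_centralizer _) ?_ ?_
    · intro a
      rw [Subalgebra.mem_centralizer_iff]
      rintro _ rfl
      exact Rop_comm_PiR π a
    · rw [Subalgebra.mem_centralizer_iff]
      rintro _ rfl
      exact Rop_comm_gen d π b
  exact (Subalgebra.mem_centralizer_iff ℂ).1 (this hx) _ rfl

lemma comm_Top {b : Fin 2} {x : L2 Idx G →L[ℂ] L2 Idx G} (hx : x ∈ algb d π b)
    (j l : Fin 2) (m n : ℕ) : Top j l m n * x = x * Top j l m n := by
  have : algb d π b ≤ Subalgebra.centralizer ℂ {(Top j l m n : L2 Idx G →L[ℂ] L2 Idx G)} := by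
    refine algb_le d π (Set.isClosed_centralizer _) ?_ ?_
    · intro a
      rw [Subalgebra.mem_centralizer_iff]
      rintro _ rfl
      exact Top_comm_PiR π a j l m n
    · rw [Subalgebra.mem_centralizer_iff]
      rintro _ rfl
      exact Top_comm_gen d π b j l m n
  exact (Subalgebra.mem_centralizer_iff ℂ).1 (this hx) _ rfl

/-- an element of the algebra is determined by its action on the vacuum vectors -/
lemma eq_zero_of_vac {b : Fin 2} {x : L2 Idx G →L[ℂ] L2 Idx G} (hx : x ∈ algb d π b)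
    (h : ∀ a g, x (sg (.vac a 0) g) = 0) : x = 0 := by
  have h1 : ∀ a n g, x (sg (.vac a n) g) = 0 := by
    intro a n
    induction n with
    | zero => exact h a
    | succ n ih =>
      intro g
      rw [← Rop_sg, ← ContinuousLinearMap.mul_apply, ← comm_Rop d π hx,
        ContinuousLinearMap.mul_apply, ih, map_zero]
  refine ext_sg (fun k g => ?_)
  rcases k with ⟨a, n⟩ | ⟨j, l, m, n⟩
  · rw [h1]; rfl
  · rw [← Top_sg, ← ContinuousLinearMap.mul_apply, ← comm_Top d π hx,
      ContinuousLinearMap.mul_apply, h1, map_zero]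
    rfl

end alg

end

end Pool.Agent.Lib.MP_4b5f87_an
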