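import Pool.Agent.Lib.MP_4b5f87_an.Model

set_option autoImplicit false
set_option linter.unusedSectionVars false
set_option linter.deprecated false
set_option linter.unusedSimpArgs false

/-!
The concrete coefficient algebra.
-/

namespace Pool.Agent.Lib.MP_4b5f87_an

open scoped ENNReal Topology

noncomputable section

section gens

/-- three isometries with complementary ranges, and an isometry with range projection `1 - E` -/
structure Gens (B : Type*) [Ring B] [StarRing B] where
  /-- first isometry -/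
  S0 : B
  /-- second isometry -/
  S1 : B
  /-- third isometry -/
  S2 : B
  /-- the shift -/
  Sh : B
  /-- the defect projection of the shift -/
  E : B
  h00 : star S0 * S0 = 1
  h11 : star S1 * S1 = 1
  h22 : star S2 * S2 = 1
  h01 : star S0 * S1 = 0
  h10 : star S1 * S0 = 0
  h02 : star S0 * S2 = 0
  h20 : star S2 * S0 = 0
  h12 : star S1 * S2 = 0
  h21 : star S2 * S1 = 0
  hsum : S0 * star S0 + S1 * star S1 + S2 * star S2 = 1
  hSh : star Sh * Sh = 1
  hE : Sh * star Sh = 1 - E
  hEE : E * E = E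
  hEs : star E = E
  hShE : star Sh * E = 0
  hESh : E * Sh = 0

namespace Gens

variable {B : Type*} [Ring B] [StarRing B] (g : Gens B)

lemma h00' (x : B) : star g.S0 * (g.S0 * x) = x := by rw [← mul_assoc, g.h00, one_mul]
lemma h11' (x : B) : star g.S1 * (g.S1 * x) = x := by rw [← mul_assoc, g.h11, one_mul]
lemma h22' (x : B) : star g.S2 * (g.S2 * x) = x := by rw [← mul_assoc, g.h22, one_mul]
lemma h01' (x : B) : star g.S0 * (g.S1 * x) = 0 := by rw [← mul_assoc, g.h01, zero_mul]
lemma h10' (x : B) : star g.S1 * (g.S0 * x) = 0 := by rw [← mul_assoc, g.h10, zero_mul]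
lemma h02' (x : B) : star g.S0 * (g.S2 * x) = 0 := by rw [← mul_assoc, g.h02, zero_mul]
lemma h20' (x : B) : star g.S2 * (g.S0 * x) = 0 := by rw [← mul_assoc, g.h20, zero_mul]
lemma h12' (x : B) : star g.S1 * (g.S2 * x) = 0 := by rw [← mul_assoc, g.h12, zero_mul]
lemma h21' (x : B) : star g.S2 * (g.S1 * x) = 0 := by rw [← mul_assoc, g.h21, zero_mul]
lemma hSh' (x : B) : star g.Sh * (g.Sh * x) = x := by rw [← mul_assoc, g.hSh, one_mul]
lemma hE' (x : B) : g.Sh * (star g.Sh * x) = x - g.E * x := by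
  rw [← mul_assoc, g.hE, sub_mul, one_mul]
lemma hEE' (x : B) : g.E * (g.E * x) = g.E * x := by rw [← mul_assoc, g.hEE]
lemma hShE' (x : B) : star g.Sh * (g.E * x) = 0 := by rw [← mul_assoc, g.hShE, zero_mul]
lemma hESh' (x : B) : g.E * (g.Sh * x) = 0 := by rw [← mul_assoc, g.hESh, zero_mul]

/-- the two decompositions -/
def q2 : Fin 2 → Fin 2 → B × B
  | 0, 0 => (g.S1 * star g.S1, g.S1 * star g.S1)
  | 0, 1 => (g.S2 * star g.S2, g.S2 * star g.S2)
  | 1, 0 => (g.S1 * star g.S1, g.S1 * star g.S1 - g.S1 * g.E * star g.S1)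
  | 1, 1 => (g.S2 * star g.S2, g.S2 * star g.S2 + g.S1 * g.E * star g.S1)

/-- the intertwiners -/
def W2 : Fin 2 → Fin 2 → Fin 2 → B × B
  | 0, 0, l => g.q2 0 l
  | 1, 1, l => g.q2 1 l
  | 0, 1, 0 => g.q2 1 0
  | 0, 1, 1 => (g.S2 * star g.Sh * star g.S2,
      g.S2 * star g.Sh * star g.S2 + g.S1 * g.E * star g.S2)
  | 1, 0, 0 => (g.S1 * star g.Sh * star g.S1, g.S1 * star g.Sh * star g.S1)
  | 1, 0, 1 => g.q2 0 1

lemma q2_sa (b l : Fin 2) : star (g.q2 b l) = g.q2 b l := by
  fin_cases b <;> fin_cases l <;> ext1 <;>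
    simp [q2, star_mul, g.hEs, mul_assoc]

lemma q2_idem (b l : Fin 2) : g.q2 b l * g.q2 b l = g.q2 b l := by
  fin_cases b <;> fin_cases l <;> ext1 <;>
    simp [q2, mul_assoc, mul_sub, sub_mul, mul_add, add_mul, g.h11', g.h22', g.h12', g.h21', g.hEE']

lemma q2_mul (b l l' : Fin 2) (h : l ≠ l') : g.q2 b l * g.q2 b l' = 0 := by
  fin_cases b <;> fin_cases l <;> fin_cases l' <;> (try exact absurd rfl h) <;> ext1 <;>
    simp [q2, mul_assoc, mul_sub, sub_mul, mul_add, add_mul, g.h11', g.h22', g.h12', g.h21', g.hEE']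

lemma q2_sum (b : Fin 2) :
    ((g.S0, g.S0) : B × B) * star (g.S0, g.S0) + (g.q2 b 0 + g.q2 b 1) = 1 := by
  have h := g.hsum
  fin_cases b
  · ext1
    · simp only [q2, Prod.fst_add, Prod.fst_mul, Prod.fst_star, Prod.fst_one, Fin.zero_eta]
      rw [← h]; abel
    · simp only [q2, Prod.snd_add, Prod.snd_mul, Prod.snd_star, Prod.snd_one, Fin.zero_eta]
      rw [← h]; abel
  · ext1
    · simp only [q2, Prod.fst_add, Prod.fst_mul, Prod.fst_star, Prod.fst_one, Fin.mk_one]
      rw [← h]; abel
    · simp only [q2, Prod.snd_add, Prod.snd_mul, Prod.snd_star, Prod.snd_one, Fin.mk_one]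
      rw [← h]; abel

lemma q2_s (b l : Fin 2) : g.q2 b l * ((g.S0, g.S0) : B × B) = 0 := by
  fin_cases b <;> fin_cases l <;> ext1 <;>
    simp [q2, mul_assoc, sub_mul, add_mul, g.h10, g.h20]

lemma W2_self (b l : Fin 2) : g.W2 b b l = g.q2 b l := by
  fin_cases b <;> rfl

lemma W2_q2 (b j l : Fin 2) : g.W2 b j l * g.q2 b l = g.W2 b j l := by
  fin_cases b <;> fin_cases j <;> fin_cases l <;> ext1 <;>
    simp [q2, W2, mul_assoc, mul_sub, sub_mul, mul_add, add_mul, g.h11', g.h22', g.h12', g.h21',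
      g.hEE', g.hShE']

lemma q2_W2 (b j l : Fin 2) : g.q2 j l * g.W2 b j l = g.W2 b j l := by
  fin_cases b <;> fin_cases j <;> fin_cases l <;> ext1 <;>
    simp [q2, W2, mul_assoc, mul_sub, sub_mul, mul_add, add_mul, g.h11', g.h22', g.h12', g.h21',
      g.hEE', g.hShE']

lemma W2_star (b j l : Fin 2) : g.W2 b j l * star (g.W2 b j l) = g.q2 j l := by
  fin_cases b <;> fin_cases j <;> fin_cases l <;> ext1 <;>
    simp [q2, W2, mul_assoc, mul_sub, sub_mul, mul_add, add_mul, g.h11', g.h22', g.h12', g.h21',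
      g.hEE', g.hShE', g.hEs, g.hSh', g.hESh']

end Gens

end gens

/-! ### the concrete isometries -/

/-- square summable sequences -/
abbrev Hc := L2 ℕ ℂ

/-- operators on square summable sequences -/
abbrev BH := Hc →L[ℂ] Hc

/-- partial permutation operator -/
def pt (g : ℕ → Option ℕ) (hg : PInj g) : BH :=
  bop g hg (fun _ => (1 : ℂ →L[ℂ] ℂ)) 1 zero_le_one (fun _ => ContinuousLinearMap.norm_id_le)

lemma pt_apply (g : ℕ → Option ℕ) (hg : PInj g) (ξ : Hc) (k : ℕ) :
    pt g hg ξ k = (g k).elim 0 (fun i => ξ i) := rfl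

lemma star_pt {g g' : ℕ → Option ℕ} (hg : PInj g) (hg' : PInj g')
    (h : ∀ i j, g i = some j ↔ g' j = some i) : star (pt g hg) = pt g' hg' := by
  refine ext_sg (fun j x => ?_)
  ext i
  refine ext_inner_left ℂ (fun v => ?_)
  rw [← inner_sg_left, ContinuousLinearMap.star_eq_adjoint,
    ContinuousLinearMap.adjoint_inner_right, inner_sg_right, pt_apply, pt_apply]
  by_cases hh : g' i = some j
  · rw [hh, (h j i).2 hh]
    simp only [Option.elim]
    rw [sg_apply_self, sg_apply_self]
  · have h1 : (g' i).elim 0 (fun k => (sg j x : Hc) k) = (0 : ℂ) := by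
      rcases h2 : g' i with _ | k
      · rfl
      · simp only [Option.elim]
        rw [sg_apply_ne]
        rintro rfl
        exact hh h2
    have h3 : (g j).elim 0 (fun k => (sg i v : Hc) k) = (0 : ℂ) := by
      rcases h2 : g j with _ | k
      · rfl
      · simp only [Option.elim]
        rw [sg_apply_ne]
        rintro rfl
        exact hh ((h j k).1 h2)
    rw [h1, h3, inner_zero_left, inner_zero_right]

/-- row sources of the isometry `e_n ↦ e_{3n+i}` -/
def gS (i k : ℕ) : Option ℕ := if k % 3 = i then some (k / 3) else none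

lemma gS_pinj (i : ℕ) : PInj (gS i) := by
  intro k k' n h h'
  simp only [gS] at h h'
  split_ifs at h with h1
  split_ifs at h' with h2
  simp only [Option.some.injEq] at h h'
  omega

/-- row sources of its adjoint -/
def gSa (i n : ℕ) : Option ℕ := some (3 * n + i)

lemma gSa_pinj (i : ℕ) : PInj (gSa i) := by
  intro k k' n h h'
  simp only [gSa, Option.some.injEq] at h h'
  omega

/-- the isometry `e_n ↦ e_{3n+i}` -/
def So (i : ℕ) : BH := pt (gS i) (gS_pinj i)

lemma star_So {i : ℕ} (hi : i < 3) : star (So i) = pt (gSa i) (gSa_pinj i) := by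
  refine star_pt _ _ (fun k n => ?_)
  simp only [gS, gSa, Option.some.injEq]
  constructor
  · intro h
    split_ifs at h with h1
    simp only [Option.some.injEq] at h
    omega
  · intro h
    rw [if_pos (by omega)]
    simp only [Option.some.injEq]
    omega

lemma So_apply (i : ℕ) (ξ : Hc) (k : ℕ) : So i ξ k = if k % 3 = i then ξ (k / 3) else 0 := by
  rw [So, pt_apply, gS]
  split_ifs <;> rfl

lemma star_So_apply {i : ℕ} (hi : i < 3) (ξ : Hc) (n : ℕ) : star (So i) ξ n = ξ (3 * n + i) := by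
  rw [star_So hi, pt_apply]
  rfl

lemma So_star_mul {i j : ℕ} (hi : i < 3) (hj : j < 3) :
    star (So i) * So j = if i = j then 1 else 0 := by
  ext ξ n
  rw [ContinuousLinearMap.mul_apply, star_So_apply hi, So_apply]
  by_cases h : i = j
  · subst h
    have h1 : (3 * n + i) / 3 = n := by omega
    rw [if_pos (by omega), if_pos rfl, ContinuousLinearMap.one_apply, h1]
  · rw [if_neg (by omega), if_neg h]
    rfl

lemma So_sum : So 0 * star (So 0) + So 1 * star (So 1) + So 2 * star (So 2) = 1 := by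
  ext ξ k
  have h0 : (So 0 * star (So 0) + So 1 * star (So 1) + So 2 * star (So 2)) ξ k =
    So 0 (star (So 0) ξ) k + So 1 (star (So 1) ξ) k + So 2 (star (So 2) ξ) k := rfl
  rw [h0, So_apply, So_apply, So_apply, star_So_apply (by norm_num), star_So_apply (by norm_num),
    star_So_apply (by norm_num), ContinuousLinearMap.one_apply]
  have h3 : k % 3 = 0 ∨ k % 3 = 1 ∨ k % 3 = 2 := by omega
  rcases h3 with h | h | h
  · have h1 : 3 * (k / 3) + 0 = k := by omega
    rw [if_pos h, if_neg (by omega), if_neg (by omega), add_zero, add_zero, h1]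
  · have h1 : 3 * (k / 3) + 1 = k := by omega
    rw [if_neg (by omega), if_pos h, if_neg (by omega), zero_add, add_zero, h1]
  · have h1 : 3 * (k / 3) + 2 = k := by omega
    rw [if_neg (by omega), if_neg (by omega), if_pos h, zero_add, zero_add, h1]

/-- row sources of the shift -/
def gSh : ℕ → Option ℕ
  | 0 => none
  | k + 1 => some k

lemma gSh_pinj : PInj gSh := by
  intro k k' n h h'
  rcases k with _ | k <;> rcases k' with _ | k' <;> simp [gSh] at h h'
  omega

/-- row sources of the backward shift -/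
def gSha (n : ℕ) : Option ℕ := some (n + 1)

lemma gSha_pinj : PInj gSha := by
  intro k k' n h h'
  simp only [gSha, Option.some.injEq] at h h'
  omega

/-- the unilateral shift -/
def Sho : BH := pt gSh gSh_pinj

lemma star_Sho : star Sho = pt gSha gSha_pinj := by
  refine star_pt _ _ (fun k n => ?_)
  rcases k with _ | k
  · simp [gSh, gSha]
  · simp [gSh, gSha, eq_comm]

lemma Sho_zero (ξ : Hc) : Sho ξ 0 = 0 := rfl
lemma Sho_succ (ξ : Hc) (k : ℕ) : Sho ξ (k + 1) = ξ k := rfl
lemma star_Sho_apply (ξ : Hc) (n : ℕ) : star Sho ξ n = ξ (n + 1) := by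
  rw [star_Sho]
  rfl

/-- the projection onto the first coordinate -/
def Eo : BH := sg 0 ∘L ev 0

lemma Eo_zero (ξ : Hc) : Eo ξ 0 = ξ 0 := by
  have : Eo ξ = sg 0 (ξ 0) := rfl
  rw [this, sg_apply_self]
lemma Eo_succ (ξ : Hc) (n : ℕ) : Eo ξ (n + 1) = 0 := by
  have : Eo ξ = sg 0 (ξ 0) := rfl
  rw [this, sg_apply_ne (by omega)]

lemma Eo_compact : IsCompactOperator (Eo : Hc → Hc) := by
  have h : IsCompactOperator (ev 0 : Hc →L[ℂ] ℂ) :=
    isCompactOperator_of_locallyCompactSpace_dom _
  exact h.clm_comp (sg 0 : ℂ →L[ℂ] Hc)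

lemma Sho_star_mul : star Sho * Sho = 1 := by
  ext ξ n
  rw [ContinuousLinearMap.mul_apply, star_Sho_apply, Sho_succ]
  rfl

lemma Sho_mul_star : Sho * star Sho = 1 - Eo := by
  ext ξ n
  have h0 : (1 - Eo : BH) ξ n = ξ n - Eo ξ n := rfl
  rw [ContinuousLinearMap.mul_apply, h0]
  rcases n with _ | n
  · rw [Sho_zero, Eo_zero, sub_self]
  · rw [Sho_succ, star_Sho_apply, Eo_succ, sub_zero]

lemma Eo_eq : Eo = 1 - Sho * star Sho := by
  rw [Sho_mul_star]
  abel

/-- the concrete generators -/
def gensH : Gens BH where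
  S0 := So 0
  S1 := So 1
  S2 := So 2
  Sh := Sho
  E := Eo
  h00 := by rw [So_star_mul (by norm_num) (by norm_num)]; simp
  h11 := by rw [So_star_mul (by norm_num) (by norm_num)]; simp
  h22 := by rw [So_star_mul (by norm_num) (by norm_num)]; simp
  h01 := by rw [So_star_mul (by norm_num) (by norm_num)]; simp
  h10 := by rw [So_star_mul (by norm_num) (by norm_num)]; simp
  h02 := by rw [So_star_mul (by norm_num) (by norm_num)]; simp
  h20 := by rw [So_star_mul (by norm_num) (by norm_num)]; simp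
  h12 := by rw [So_star_mul (by norm_num) (by norm_num)]; simp
  h21 := by rw [So_star_mul (by norm_num) (by norm_num)]; simp
  hsum := So_sum
  hSh := Sho_star_mul
  hE := Sho_mul_star
  hEE := by
    rw [Eo_eq]
    have : Sho * star Sho * (Sho * star Sho) = Sho * star Sho := by
      rw [mul_assoc, ← mul_assoc (star Sho), Sho_star_mul, one_mul]
    rw [mul_sub, sub_mul, sub_mul, this]
    noncomm_ring
  hEs := by
    rw [Eo_eq, star_sub, star_one, star_mul, star_star]
  hShE := by
    rw [Eo_eq, mul_sub, mul_one, ← mul_assoc, Sho_star_mul, one_mul, sub_self]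
  hESh := by
    rw [Eo_eq, sub_mul, one_mul, mul_assoc, Sho_star_mul, mul_one, sub_self]

lemma Eo_ne_zero : Eo ≠ 0 := by
  intro h
  have h1 : Eo (sg 0 (1 : ℂ)) 0 = (0 : ℂ) := by rw [h]; rfl
  rw [Eo_zero, sg_apply_self] at h1
  exact one_ne_zero h1

/-! ### the coefficient algebra -/

/-- compactness of an operator and its adjoint -/
def Cpt (x : BH) : Prop :=
  IsCompactOperator (x : Hc → Hc) ∧ IsCompactOperator ((star x : BH) : Hc → Hc)

lemma Cpt.zero : Cpt 0 := by
  constructor
  · exact isCompactOperator_zero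
  · rw [star_zero]
    exact isCompactOperator_zero

lemma Cpt.add {x y : BH} (hx : Cpt x) (hy : Cpt y) : Cpt (x + y) := by
  refine ⟨hx.1.add hy.1, ?_⟩
  rw [star_add]
  exact hx.2.add hy.2

lemma Cpt.star' {x : BH} (hx : Cpt x) : Cpt (star x) := by
  refine ⟨hx.2, ?_⟩
  rw [star_star]
  exact hx.1

lemma Cpt.mul_left {x : BH} (hx : Cpt x) (y : BH) : Cpt (y * x) := by
  refine ⟨hx.1.clm_comp y, ?_⟩
  rw [star_mul]
  exact hx.2.comp_clm (star y)

lemma Cpt.mul_right {x : BH} (hx : Cpt x) (y : BH) : Cpt (x * y) := by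
  have := (hx.star'.mul_left (star y)).star'
  rwa [star_mul, star_star, star_star] at this

lemma isClosed_Cpt : IsClosed {x : BH | Cpt x} := by
  have h : IsClosed {x : BH | IsCompactOperator (x : Hc → Hc)} :=
    isClosed_setOfPred_isCompactOperator
  have h2 : IsClosed {x : BH | IsCompactOperator ((star x : BH) : Hc → Hc)} :=
    h.preimage (continuous_star : Continuous (star : BH → BH))
  exact h.inter h2

lemma Eo_Cpt : Cpt Eo := by
  refine ⟨Eo_compact, ?_⟩
  have := gensH.hEs
  have h2 : star Eo = Eo := this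
  rw [h2]
  exact Eo_compact

/-- pairs of operators with compact difference -/
def Dalg : StarSubalgebra ℂ (BH × BH) where
  carrier := {z | Cpt (z.1 - z.2)}
  mul_mem' := by
    intro z w hz hw
    have h : (z * w).1 - (z * w).2 = z.1 * (w.1 - w.2) + (z.1 - z.2) * w.2 := by
      simp only [Prod.fst_mul, Prod.snd_mul]
      noncomm_ring
    simp only [Set.mem_setOf_eq]
    rw [h]
    exact (Cpt.mul_left hw _).add (Cpt.mul_right hz _)
  add_mem' := by
    intro z w hz hw
    have h : (z + w).1 - (z + w).2 = (z.1 - z.2) + (w.1 - w.2) := by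
      simp only [Prod.fst_add, Prod.snd_add]
      abel
    simp only [Set.mem_setOf_eq]
    rw [h]
    exact Cpt.add hz hw
  algebraMap_mem' := by
    intro r
    simp only [Set.mem_setOf_eq, Prod.algebraMap_apply, sub_self]
    exact Cpt.zero
  star_mem' := by
    intro z hz
    simp only [Set.mem_setOf_eq, Prod.fst_star, Prod.snd_star]
    rw [← star_sub]
    exact Cpt.star' hz

lemma mem_Dalg {z : BH × BH} : z ∈ Dalg ↔ Cpt (z.1 - z.2) := Iff.rfl

instance isClosed_Dalg : IsClosed (Dalg : Set (BH × BH)) := by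
  have h : (Dalg : Set (BH × BH)) = (fun z : BH × BH => z.1 - z.2) ⁻¹' {x : BH | Cpt x} := rfl
  rw [h]
  exact isClosed_Cpt.preimage (continuous_fst.sub continuous_snd)

/-- the coefficient algebra -/
abbrev Dc : Type := Dalg

instance : CStarAlgebra Dc := StarSubalgebra.cstarAlgebra Dalg (h_closed := isClosed_Dalg)

lemma diag_mem (x : BH) : (x, x) ∈ Dalg := by
  rw [mem_Dalg]
  simp only [sub_self]
  exact Cpt.zero

lemma Cpt.neg {x : BH} (hx : Cpt x) : Cpt (-x) := by
  have := hx.mul_left (-1)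
  rwa [neg_mul, one_mul] at this

lemma q2_mem (b l : Fin 2) : gensH.q2 b l ∈ Dalg := by
  have h1 : Cpt (So 1 * Eo * star (So 1)) := (Eo_Cpt.mul_left _).mul_right _
  fin_cases b <;> fin_cases l
  · exact diag_mem _
  · exact diag_mem _
  · rw [mem_Dalg]
    have : (gensH.q2 1 0).1 - (gensH.q2 1 0).2 = So 1 * Eo * star (So 1) := by
      show So 1 * star (So 1) - (So 1 * star (So 1) - So 1 * Eo * star (So 1)) = _
      abel
    exact this ▸ h1
  · rw [mem_Dalg]
    have : (gensH.q2 1 1).1 - (gensH.q2 1 1).2 = -(So 1 * Eo * star (So 1)) := by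
      show So 2 * star (So 2) - (So 2 * star (So 2) + So 1 * Eo * star (So 1)) = _
      abel
    exact this ▸ h1.neg

lemma W2_mem (b j l : Fin 2) : gensH.W2 b j l ∈ Dalg := by
  fin_cases b <;> fin_cases j
  · exact q2_mem 0 l
  · fin_cases l
    · exact q2_mem 1 0
    · rw [mem_Dalg]
      have h1 : Cpt (So 1 * Eo * star (So 2)) := (Eo_Cpt.mul_left _).mul_right _
      have : (gensH.W2 0 1 1).1 - (gensH.W2 0 1 1).2 = -(So 1 * Eo * star (So 2)) := by
        show So 2 * star Sho * star (So 2) -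
          (So 2 * star Sho * star (So 2) + So 1 * Eo * star (So 2)) = _
        abel
      exact this ▸ h1.neg
  · fin_cases l
    · exact diag_mem _
    · exact q2_mem 0 1
  · exact q2_mem 1 l

/-- the data of the counterexample -/
def datc : Dat Dc where
  s := ⟨(So 0, So 0), diag_mem _⟩
  q b l := ⟨gensH.q2 b l, q2_mem b l⟩
  W b j l := ⟨gensH.W2 b j l, W2_mem b j l⟩
  hs := by
    apply Subtype.ext
    ext1
    · exact gensH.h00
    · exact gensH.h00
  hq_sa b l := Subtype.ext (gensH.q2_sa b l)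
  hq_idem b l := Subtype.ext (gensH.q2_idem b l)
  hqq b l l' h := Subtype.ext (gensH.q2_mul b l l' h)
  hsum b := Subtype.ext (gensH.q2_sum b)
  hqs b l := Subtype.ext (gensH.q2_s b l)
  hWself b l := Subtype.ext (gensH.W2_self b l)
  hWq b j l := Subtype.ext (gensH.W2_q2 b j l)
  hqW b j l := Subtype.ext (gensH.q2_W2 b j l)
  hWW b j l := Subtype.ext (gensH.W2_star b j l)

end

end Pool.Agent.Lib.MP_4b5f87_an
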