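import Pool.Agent.Lib.MP_4b5f87_an.Same

set_option autoImplicit false
set_option linter.unusedSectionVars false
set_option linter.deprecated false

/-!
The map onto the diagonal is contractive.
-/

namespace Pool.Agent.Lib.MP_4b5f87_an

open scoped ENNReal Topology

noncomputable section

lemma le_of_pow_le {a b C : ℝ} (hb : 0 ≤ b) (h : ∀ n : ℕ, a ^ (2 ^ n) ≤ C * b ^ (2 ^ n)) :
    a ≤ b := by
  by_contra hab
  rw [not_le] at hab
  rcases hb.eq_or_lt with hb0 | hb0
  · have h1 := h 0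
    rw [← hb0] at h1
    simp at h1
    rw [← hb0] at hab
    linarith
  · have hr : 1 < a / b := by rwa [one_lt_div hb0]
    obtain ⟨m, hm⟩ := pow_unbounded_of_one_lt C hr
    have h1 := h m
    have h2 : (a / b) ^ m ≤ (a / b) ^ (2 ^ m) :=
      pow_le_pow_right₀ hr.le (Nat.lt_two_pow_self).le
    have h3 : (a / b) ^ (2 ^ m) ≤ C := by
      rw [div_pow, div_le_iff₀ (by positivity)]
      exact h1
    linarith

section contr

variable {G : Type*} [NormedAddCommGroup G] [InnerProductSpace ℂ G] [CompleteSpace G]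
variable {D : Type*} [CStarAlgebra D] (d : Dat D) (π : D →⋆ₐ[ℂ] (G →L[ℂ] G))
variable (hπ : Function.Injective π)

include hπ in
lemma Emap_pow [Nontrivial G] {b : Fin 2} {x : L2 Idx G →L[ℂ] L2 Idx G}
    (hx : x ∈ algb d π b) (n : ℕ) : Emap b (x ^ n) = Emap b x ^ n := by
  induction n with
  | zero =>
    rw [pow_zero, pow_zero]
    have := Emap_PiR π b (1 : Alg D)
    rwa [map_one] at this
  | succ n ih => rw [pow_succ', pow_succ', Emap_mul d π hπ hx, ih]

include hπ in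
lemma norm_PiR [Nontrivial G] (a : Alg D) : ‖PiR π a‖ = ‖a‖ :=
  NonUnitalStarAlgHom.norm_map (PiR π) (PiR_injective π hπ) a

include hπ in
lemma norm_Emap_le [Nontrivial G] {b : Fin 2} {x : L2 Idx G →L[ℂ] L2 Idx G}
    (hx : x ∈ algb d π b) : ‖Emap b x‖ ≤ ‖x‖ := by
  obtain ⟨a, ha⟩ := Emap_range d π hπ hx
  set z := PiR π (star a) * x with hz
  have hzm : z ∈ algb d π b := Subalgebra.mul_mem _ (PiR_mem d π b _) hx
  have hEz : Emap b z = PiR π (star a * a) := by
    rw [hz, Emap_PiR_mul, map_mul, ← ha]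
  have hps : IsSelfAdjoint (star a * a) := IsSelfAdjoint.star_mul_self _
  have h1 : ∀ n : ℕ, ‖star a * a‖ ^ (2 ^ n) ≤
      ‖(Emap b : (L2 Idx G →L[ℂ] L2 Idx G) →L[ℂ] (L2 Idx G →L[ℂ] L2 Idx G))‖ *
        ‖z‖ ^ (2 ^ n) := by
    intro n
    have h2 : ‖(star a * a) ^ (2 ^ n)‖ = ‖star a * a‖ ^ (2 ^ n) := by
      have := hps.nnnorm_pow_two_pow n
      have h3 := congrArg ((↑) : NNReal → ℝ) this
      simpa using h3
    rw [← h2, ← norm_PiR π hπ, map_pow, ← hEz, ← Emap_pow d π hπ hzm]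
    refine (ContinuousLinearMap.le_opNorm _ _).trans ?_
    refine mul_le_mul_of_nonneg_left ?_ (norm_nonneg _)
    exact norm_pow_le' z (by positivity)
  have h2 : ‖star a * a‖ ≤ ‖z‖ := le_of_pow_le (norm_nonneg z) h1
  have h3 : ‖star a * a‖ = ‖a‖ * ‖a‖ := CStarRing.norm_star_mul_self
  have h4 : ‖z‖ ≤ ‖a‖ * ‖x‖ := by
    refine (norm_mul_le _ _).trans ?_
    rw [norm_PiR π hπ, norm_star]
  rw [← ha, norm_PiR π hπ]
  rw [h3] at h2
  rcases (norm_nonneg a).eq_or_lt with h5 | h5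
  · rw [← h5]
    exact norm_nonneg x
  · exact le_of_mul_le_mul_left (h2.trans h4) h5

end contr

end

end Pool.Agent.Lib.MP_4b5f87_an
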