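import Pool.Agent.Lib.MP_4b5f87_an.Model

set_option autoImplicit false
set_option linter.unusedSectionVars false
set_option linter.deprecated false

/-!
The functionals which compute the coefficients of order zero and one.
-/

namespace Pool.Agent.Lib.MP_4b5f87_an

open scoped ENNReal

noncomputable section

section func

variable {G : Type*} [NormedAddCommGroup G] [InnerProductSpace ℂ G] [CompleteSpace G]

/-- weighted sum of coordinates -/
def fn (i : ℕ → Idx) (c : ℕ → ℂ) : L2 Idx G →L[ℂ] G := ∑' n, c n • ev (i n)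

lemma fn_summable (i : ℕ → Idx) {c : ℕ → ℂ} (hc : Summable (fun n => ‖c n‖)) :
    Summable (fun n => c n • (ev (i n) : L2 Idx G →L[ℂ] G)) := by
  refine Summable.of_norm_bounded (E := L2 Idx G →L[ℂ] G) (g := fun n => ‖c n‖) hc (fun n => ?_)
  refine ContinuousLinearMap.opNorm_le_bound _ (norm_nonneg _) (fun ξ => ?_)
  have h : (c n • (ev (i n) : L2 Idx G →L[ℂ] G)) ξ = c n • ξ (i n) := rfl
  rw [h, norm_smul]
  exact mul_le_mul_of_nonneg_left (norm_coe_le ξ (i n)) (norm_nonneg _)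

lemma fn_hasSum (i : ℕ → Idx) {c : ℕ → ℂ} (hc : Summable (fun n => ‖c n‖)) (ξ : L2 Idx G) :
    HasSum (fun n => c n • ξ (i n)) (fn i c ξ) :=
  ((fn_summable (G := G) i hc).hasSum).mapL (ContinuousLinearMap.apply ℂ G ξ)

lemma kap_summable (b : Fin 2) : Summable (fun n : ℕ => ‖kap b ^ n‖) := by
  simp_rw [norm_pow, norm_kap]
  exact summable_geometric_of_lt_one (by norm_num) (by norm_num)

lemma dkap_summable (b : Fin 2) : Summable (fun n : ℕ => ‖(n : ℂ) * kap b ^ (n - 1)‖) := by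
  have h : Summable (fun n : ℕ => ‖((n : ℝ) ^ 1) * (1 / 2 : ℝ) ^ n‖) :=
    summable_norm_pow_mul_geometric_of_norm_lt_one 1 (by norm_num)
  refine Summable.of_nonneg_of_le (fun n => norm_nonneg _) (fun n => ?_) (h.mul_left 2)
  rcases n with _ | n
  · simp
  · rw [norm_mul, norm_pow, norm_kap, Complex.norm_natCast,
      Real.norm_of_nonneg (by positivity : (0 : ℝ) ≤ ((n + 1 : ℕ) : ℝ) ^ 1 * (1 / 2 : ℝ) ^ (n + 1))]
    simp only [Nat.add_sub_cancel]
    rw [pow_one, pow_succ (1 / 2 : ℝ) n]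
    apply le_of_eq
    ring

/-- evaluation at the base point -/
def eb (b : Fin 2) (a : Option (Fin 2)) : L2 Idx G →L[ℂ] G :=
  fn (fun n => .vac a n) (fun n => kap b ^ n)

/-- derivative at the base point -/
def db (b : Fin 2) (a : Option (Fin 2)) : L2 Idx G →L[ℂ] G :=
  fn (fun n => .vac a n) (fun n => (n : ℂ) * kap b ^ (n - 1))

/-- evaluation of the level-one part at the base point -/
def ob (b l : Fin 2) : L2 Idx G →L[ℂ] G :=
  fn (fun n => .one b l 0 n) (fun n => kap b ^ n)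

lemma eb_hasSum (b : Fin 2) (a : Option (Fin 2)) (ξ : L2 Idx G) :
    HasSum (fun n : ℕ => kap b ^ n • ξ (.vac a n)) (eb b a ξ) := fn_hasSum _ (kap_summable b) ξ

lemma db_hasSum (b : Fin 2) (a : Option (Fin 2)) (ξ : L2 Idx G) :
    HasSum (fun n : ℕ => ((n : ℂ) * kap b ^ (n - 1)) • ξ (.vac a n)) (db b a ξ) :=
  fn_hasSum _ (dkap_summable b) ξ

lemma ob_hasSum (b l : Fin 2) (ξ : L2 Idx G) :
    HasSum (fun n : ℕ => kap b ^ n • ξ (.one b l 0 n)) (ob b l ξ) :=
  fn_hasSum _ (kap_summable b) ξ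

lemma eb_sg (b : Fin 2) (a : Option (Fin 2)) (g : G) : eb b a (sg (.vac a 0) g) = g := by
  refine (eb_hasSum b a _).unique ?_
  have := hasSum_single (f := fun n : ℕ => kap b ^ n • (sg (.vac a 0) g : L2 Idx G) (.vac a n)) 0 ?_
  · simpa [sg_apply_self] using this
  · intro n hn
    rw [sg_apply_ne, smul_zero]
    intro h
    simp only [Idx.vac.injEq, true_and] at h
    exact hn h

lemma db_sg (b : Fin 2) (a : Option (Fin 2)) (g : G) : db b a (sg (.vac a 0) g) = 0 := by
  refine (db_hasSum b a _).unique ?_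
  have : (fun n : ℕ => ((n : ℂ) * kap b ^ (n - 1)) • (sg (.vac a 0) g : L2 Idx G) (.vac a n))
      = fun _ => 0 := by
    ext n
    rcases n with _ | n
    · simp
    · rw [sg_apply_ne, smul_zero]
      simp
  rw [this]
  exact hasSum_zero

lemma ob_sg (b l : Fin 2) (a : Option (Fin 2)) (g : G) : ob b l (sg (.vac a 0) g) = 0 := by
  refine (ob_hasSum b l _).unique ?_
  have : (fun n : ℕ => kap b ^ n • (sg (.vac a 0) g : L2 Idx G) (.one b l 0 n))
      = fun _ => 0 := by
    ext n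
    rw [sg_apply_ne, smul_zero]
    simp
  rw [this]
  exact hasSum_zero

variable {D : Type*} [CStarAlgebra D] (d : Dat D) (π : D →⋆ₐ[ℂ] (G →L[ℂ] G))

lemma eb_gen (b : Fin 2) (a : Option (Fin 2)) (ξ : L2 Idx G) : eb b a (gen d π b ξ) = 0 := by
  have hS := ((eb_hasSum b a ξ).mapL (vsT d π a)).const_smul (kap b)
  set S := kap b • vsT d π a (eb b a ξ) with hSdef
  set u : ℕ → G := fun n => kap b • vsT d π a (kap b ^ n • ξ (.vac a n)) with hu
  have h1 : HasSum (fun n => u (n + 1)) (S - u 0) := by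
    have := (hasSum_nat_add_iff' 1).2 hS
    simpa [hu] using this
  set f : ℕ → G := fun n => kap b ^ n • gen d π b ξ (.vac a n) with hf
  have h2 : ∀ n, f (n + 1) = -u (n + 1) + u n := by
    intro n
    simp only [hf, hu]
    rw [gen_vac_succ, map_smul, map_smul, smul_add, smul_neg, smul_smul, smul_smul, smul_smul]
    congr 2
    · rw [mul_comm]
    · rw [pow_succ, mul_comm]
  have h3 : HasSum (fun n => f (n + 1)) (-(S - u 0) + S) := by
    simp_rw [h2]
    exact h1.neg.add hS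
  have h4 : f 0 = -u 0 := by
    simp only [hf, hu]
    rw [gen_vac_zero, pow_zero, one_smul, one_smul]
  have h5 := h3.zero_add
  rw [h4] at h5
  have h6 := (eb_hasSum b a (gen d π b ξ)).unique h5
  rw [h6]
  abel

lemma db_gen (b : Fin 2) (a : Option (Fin 2)) (ξ : L2 Idx G) :
    db b a (gen d π b ξ) = vsT d π a (eb b a ξ) := by
  have hW := (eb_hasSum b a ξ).mapL (vsT d π a)
  have hV0 := ((db_hasSum b a ξ).mapL (vsT d π a)).const_smul (kap b)
  set w : ℕ → G := fun n => vsT d π a (kap b ^ n • ξ (.vac a n)) with hw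
  set v : ℕ → G := fun n => kap b • vsT d π a (((n : ℂ) * kap b ^ (n - 1)) • ξ (.vac a n)) with hv
  set V := kap b • vsT d π a (db b a ξ) with hVdef
  have hv0 : v 0 = 0 := by simp [hv]
  have h1 : HasSum (fun n => v (n + 1)) V := by
    have := (hasSum_nat_add_iff' 1).2 hV0
    simpa [hv] using this
  set f : ℕ → G := fun n => ((n : ℂ) * kap b ^ (n - 1)) • gen d π b ξ (.vac a n) with hf
  have h2 : ∀ n, f (n + 1) = -v (n + 1) + (v n + w n) := by
    intro n
    simp only [hf, hv, hw]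
    rw [gen_vac_succ, map_smul, map_smul, map_smul, smul_add, smul_neg, smul_smul, smul_smul,
      smul_smul, ← add_smul]
    congr 2
    · rw [mul_comm]
    · rcases n with _ | n
      · simp
      · simp only [Nat.add_sub_cancel]
        push_cast
        ring
  have h3 : HasSum (fun n => f (n + 1)) (-V + (V + vsT d π a (eb b a ξ))) := by
    simp_rw [h2]
    exact h1.neg.add (hV0.add hW)
  have h5 := h3.zero_add
  have h4 : f 0 = 0 := by simp [hf]
  rw [h4] at h5
  have h6 := (db_hasSum b a (gen d π b ξ)).unique h5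
  rw [h6]
  abel

lemma ob_gen (b l : Fin 2) (ξ : L2 Idx G) :
    ob b l (gen d π b ξ) = π (d.q b l) (eb b none ξ) := by
  have hW := (eb_hasSum b none ξ).mapL (π (d.q b l))
  refine (ob_hasSum b l _).unique ?_
  convert hW using 2 with n
  rw [gen_one_zero, sub_self, zero_smul, zero_add, d.hWself, map_smul]

/-- the functionals which compute the coefficient of order one -/
def fb (b : Fin 2) : Option (Fin 2) → (L2 Idx G →L[ℂ] G)
  | none => π d.s ∘L db b none + (ob b 0 + ob b 1)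
  | some l => db b (some l)

lemma fb_sg (b : Fin 2) (a : Option (Fin 2)) (g : G) : fb d π b a (sg (.vac a 0) g) = 0 := by
  rcases a with _ | l
  · simp only [fb, ContinuousLinearMap.add_apply, ContinuousLinearMap.comp_apply, db_sg, ob_sg,
      map_zero, add_zero]
  · simp only [fb, db_sg]

lemma fb_gen (b : Fin 2) (a : Option (Fin 2)) (ξ : L2 Idx G) :
    fb d π b a (gen d π b ξ) = eb b a ξ := by
  rcases a with _ | l
  · simp only [fb, ContinuousLinearMap.add_apply, ContinuousLinearMap.comp_apply, db_gen, ob_gen,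
      vsT_none]
    rw [← ContinuousLinearMap.mul_apply, ← map_mul, ← ContinuousLinearMap.add_apply, ← map_add,
      ← ContinuousLinearMap.add_apply, ← map_add, d.hsum, map_one, ContinuousLinearMap.one_apply]
  · simp only [fb, db_gen, vsT_some, ContinuousLinearMap.one_apply]

lemma PiR_sg (a : Alg D) (o : Option (Fin 2)) (n : ℕ) (g : G) :
    PiR π a (sg (.vac o n) g) = sg (.vac o n) (rho π a o g) := by
  ext k
  rw [PiR_eq, dg_apply]
  by_cases h : k = .vac o n
  · subst h
    rw [sg_apply_self, sg_apply_self]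
    rfl
  · rw [sg_apply_ne h, sg_apply_ne h, map_zero]

/-- `x ↦ l x r` -/
def sandw (l : L2 Idx G →L[ℂ] G) (r : G →L[ℂ] L2 Idx G) :
    (L2 Idx G →L[ℂ] L2 Idx G) →L[ℂ] (G →L[ℂ] G) :=
  LinearMap.mkContinuous
    { toFun := fun x => l ∘L (x ∘L r)
      map_add' := fun x y => by ext g; simp
      map_smul' := fun c x => by ext g; simp } (‖l‖ * ‖r‖) (fun x => by
      have h1 := ContinuousLinearMap.opNorm_comp_le l (x ∘L r)
      have h2 := ContinuousLinearMap.opNorm_comp_le x r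
      calc ‖l ∘L (x ∘L r)‖ ≤ ‖l‖ * ‖x ∘L r‖ := h1
        _ ≤ ‖l‖ * (‖x‖ * ‖r‖) := mul_le_mul_of_nonneg_left h2 (norm_nonneg l)
        _ = ‖l‖ * ‖r‖ * ‖x‖ := by ring)

lemma sandw_apply (l : L2 Idx G →L[ℂ] G) (r : G →L[ℂ] L2 Idx G) (x : L2 Idx G →L[ℂ] L2 Idx G)
    (g : G) : sandw l r x g = l (x (r g)) := rfl

/-- the coefficient of order zero -/
def Emap (b : Fin 2) : (L2 Idx G →L[ℂ] L2 Idx G) →L[ℂ] (L2 Idx G →L[ℂ] L2 Idx G) :=
  dgL ∘L ContinuousLinearMap.pi (fun a => sandw (eb b a) (sg (.vac a 0)))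

/-- the term of order one -/
def Fmap (b : Fin 2) : (L2 Idx G →L[ℂ] L2 Idx G) →L[ℂ] (L2 Idx G →L[ℂ] L2 Idx G) :=
  (ContinuousLinearMap.mul ℂ (L2 Idx G →L[ℂ] L2 Idx G) (gen d π b)) ∘L
    (dgL ∘L ContinuousLinearMap.pi (fun a => sandw (fb d π b a) (sg (.vac a 0))))

lemma Emap_apply (b : Fin 2) (x : L2 Idx G →L[ℂ] L2 Idx G) :
    Emap b x = dg (fun a => sandw (eb b a) (sg (.vac a 0)) x) := rfl

lemma Fmap_apply (b : Fin 2) (x : L2 Idx G →L[ℂ] L2 Idx G) :
    Fmap d π b x = gen d π b * dg (fun a => sandw (fb d π b a) (sg (.vac a 0)) x) := rfl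

lemma Emap_gen_mul (b : Fin 2) (x : L2 Idx G →L[ℂ] L2 Idx G) :
    Emap b (gen d π b * x) = 0 := by
  rw [Emap_apply, ← dg_zero]
  congr 1
  ext a g
  rw [sandw_apply, ContinuousLinearMap.mul_apply, eb_gen]
  rfl

lemma Emap_PiR (b : Fin 2) (a : Alg D) : Emap b (PiR π a) = PiR π a := by
  rw [Emap_apply, PiR_eq]
  congr 1
  ext o g
  rw [sandw_apply, ← PiR_eq, PiR_sg, eb_sg]

lemma Emap_PiR_mul (b : Fin 2) (a : Alg D) (x : L2 Idx G →L[ℂ] L2 Idx G) :
    Emap b (PiR π a * x) = PiR π a * Emap b x := by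
  rw [Emap_apply, Emap_apply, PiR_eq, ← dg_mul]
  congr 1
  ext o g
  rw [sandw_apply, Pi.mul_apply, ContinuousLinearMap.mul_apply, ContinuousLinearMap.mul_apply,
    sandw_apply]
  have h1 := (eb_hasSum b o (x (sg (.vac o 0) g))).mapL (rho π a o)
  refine (eb_hasSum b o _).unique ?_
  convert h1 using 2 with n
  rw [map_smul]
  rfl

lemma Fmap_PiR (b : Fin 2) (a : Alg D) : Fmap d π b (PiR π a) = 0 := by
  rw [Fmap_apply]
  have : (fun o => sandw (fb d π b o) (sg (.vac o 0)) (PiR π a)) =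
      (0 : Option (Fin 2) → (G →L[ℂ] G)) := by
    ext o g
    rw [sandw_apply, PiR_sg, fb_sg]
    rfl
  rw [this, dg_zero, mul_zero]

lemma Fmap_gen_mul (b : Fin 2) (x : L2 Idx G →L[ℂ] L2 Idx G) :
    Fmap d π b (gen d π b * x) = gen d π b * Emap b x := by
  rw [Fmap_apply, Emap_apply]
  congr 2
  ext o g
  rw [sandw_apply, sandw_apply, ContinuousLinearMap.mul_apply, fb_gen]

end func

end

end Pool.Agent.Lib.MP_4b5f87_an
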