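import Pool.Agent.Lib.MP_4b5f87_an.Commutant

set_option autoImplicit false
set_option linter.unusedSectionVars false
set_option linter.deprecated false

/-!
Injectivity of the generators, and the diagonal of the algebra.
-/

namespace Pool.Agent.Lib.MP_4b5f87_an

open scoped ENNReal

noncomputable section

section inj

variable {G : Type*} [NormedAddCommGroup G] [InnerProductSpace ℂ G] [CompleteSpace G]
variable {D : Type*} [CStarAlgebra D] (d : Dat D) (π : D →⋆ₐ[ℂ] (G →L[ℂ] G))

lemma bv_sub_ne {j b : Fin 2} (h : j ≠ b) : bv j - bv b ≠ 0 := by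
  fin_cases j <;> fin_cases b <;> simp [bv] at h ⊢

/-- the generators are injective on vectors -/
lemma gen_injective (b : Fin 2) {ξ : L2 Idx G} (h : gen d π b ξ = 0) : ξ = 0 := by
  have hk : ∀ k, gen d π b ξ k = 0 := by
    intro k
    rw [h]
    rfl
  have h1 : ∀ a n, vsT d π a (ξ (.vac a n)) = 0 := by
    intro a n
    induction n with
    | zero =>
      have := hk (.vac a 0)
      rw [gen_vac_zero, neg_eq_zero, smul_eq_zero] at this
      exact this.resolve_left (kap_ne_zero b)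
    | succ n ih =>
      have := hk (.vac a (n + 1))
      rw [gen_vac_succ, ih, add_zero, neg_eq_zero, smul_eq_zero] at this
      exact this.resolve_left (kap_ne_zero b)
  have h2 : ∀ l n, ξ (.vac (some l) n) = 0 := by
    intro l n
    have := h1 (some l) n
    rwa [vsT_some, ContinuousLinearMap.one_apply] at this
  have h3 : ∀ l n, π (d.q b l) (ξ (.vac none n)) = 0 := by
    intro l n
    have := hk (.one b l 0 n)
    rwa [gen_one_zero, sub_self, zero_smul, zero_add, d.hWself] at this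
  have h4 : ∀ n, ξ (.vac none n) = 0 := by
    intro n
    have h5 : ξ (.vac none n) = π (d.s * star d.s + (d.q b 0 + d.q b 1)) (ξ (.vac none n)) := by
      rw [d.hsum, map_one, ContinuousLinearMap.one_apply]
    have h6 := h1 none n
    rw [vsT_none] at h6
    rw [h5, map_add, map_add, map_mul, ContinuousLinearMap.add_apply,
      ContinuousLinearMap.add_apply, ContinuousLinearMap.mul_apply, h6, h3, h3, map_zero, add_zero,
      add_zero]
  have h5 : ∀ a n, ξ (.vac a n) = 0 := by
    intro a n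
    rcases a with _ | l
    · exact h4 n
    · exact h2 l n
  have h6 : ∀ j l m n, ξ (.one j l m n) = 0 := by
    intro j l m n
    by_cases hj : j = b
    · subst hj
      have := hk (.one j l (m + 1) n)
      rw [gen_one_succ, sub_self, zero_smul, zero_add, smul_eq_zero] at this
      exact this.resolve_left (by norm_num)
    · induction m with
      | zero =>
        have := hk (.one j l 0 n)
        rw [gen_one_zero, h5, map_zero, add_zero, smul_eq_zero] at this
        exact this.resolve_left (bv_sub_ne hj)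
      | succ m ih =>
        have := hk (.one j l (m + 1) n)
        rw [gen_one_succ, ih, smul_zero, add_zero, smul_eq_zero] at this
        exact this.resolve_left (bv_sub_ne hj)
  ext k
  rcases k with ⟨a, n⟩ | ⟨j, l, m, n⟩
  · exact h5 a n
  · exact h6 j l m n

lemma gen_mul_cancel (b : Fin 2) {x : L2 Idx G →L[ℂ] L2 Idx G} (h : gen d π b * x = 0) :
    x = 0 := by
  ext1 ξ
  apply gen_injective d π b
  rw [← ContinuousLinearMap.mul_apply, h]
  rfl

lemma YT_mul_PiR (T : Fin 2 → Fin 2 → (G →L[ℂ] G)) (a : Alg D) :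
    YT T * PiR π a = YT (fun j l => T j l * π a.1) := by
  ext ξ k
  rw [ContinuousLinearMap.mul_apply]
  rcases k with ⟨o, n⟩ | ⟨j, l, m, n⟩
  · rw [YT_vac, YT_vac]
  · rcases m with _ | m
    · rw [YT_one_zero, YT_one_zero, PiR_vac_none, ContinuousLinearMap.mul_apply]
    · rw [YT_one_succ, YT_one_succ]

lemma YT_zero : YT (fun _ _ => (0 : G →L[ℂ] G)) = 0 := by
  ext ξ k
  rcases k with ⟨o, n⟩ | ⟨j, l, m, n⟩
  · rw [YT_vac]; rfl
  · rcases m with _ | m
    · rw [YT_one_zero]; rfl
    · rw [YT_one_succ]; rfl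

/-- the coordinate operator in terms of the generator -/
lemma gen_mul_PiR_vv (b : Fin 2) : gen d π b * PiR π (vv d) = Zop - bv b • 1 := by
  rw [gen, add_mul, mul_assoc, ← map_mul, star_vv_mul, map_one, mul_one, YT_mul_PiR]
  have : (fun j l => π (d.W b j l) * π (vv d).1) = fun _ _ => (0 : G →L[ℂ] G) := by
    ext1 j
    ext1 l
    rw [← map_mul]
    have : (vv d).1 = d.s := rfl
    rw [this, d.hWs, map_zero]
  rw [this, YT_zero, add_zero]

lemma Zop_apply_of_one (b : Fin 2) {ξ : L2 Idx G} (h : ∀ j l m n, ξ (.one j l m n) = 0) :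
    (Zop - bv b • 1 : L2 Idx G →L[ℂ] L2 Idx G) ξ = Rop ξ - kap b • ξ := by
  ext k
  have h0 : (Zop - bv b • 1 : L2 Idx G →L[ℂ] L2 Idx G) ξ k = Zop ξ k - bv b • ξ k := rfl
  rw [h0, lp.coeFn_sub, Pi.sub_apply, lp.coeFn_smul, Pi.smul_apply]
  rcases k with ⟨a, n⟩ | ⟨j, l, m, n⟩
  · rcases n with _ | n
    · rw [Zop_vac_zero, Rop_vac_zero, kap, sub_smul]
      abel
    · rw [Zop_vac_succ, Rop_vac_succ, kap, sub_smul]
      abel
  · rw [h, smul_zero, smul_zero, sub_zero, sub_zero]
    rcases m with _ | m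
    · rw [Zop_one_zero, h, smul_zero]
      rcases n with _ | n
      · rw [Rop_one_zero]
      · rw [Rop_one_succ, h]
    · rw [Zop_one_succ, h, h, smul_zero, smul_zero, add_zero]
      rcases n with _ | n
      · rw [Rop_one_zero]
      · rw [Rop_one_succ, h]

lemma Rop_sub_injective (b : Fin 2) {ξ : L2 Idx G} (h : Rop ξ - kap b • ξ = 0) : ξ = 0 := by
  have hk : ∀ k, Rop ξ k - kap b • ξ k = 0 := by
    intro k
    have h0 : (Rop ξ - kap b • ξ) k = Rop ξ k - kap b • ξ k := by
      rw [lp.coeFn_sub, Pi.sub_apply, lp.coeFn_smul, Pi.smul_apply]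
    rw [← h0, h]
    rfl
  ext k
  show ξ k = 0
  rcases k with ⟨a, n⟩ | ⟨j, l, m, n⟩
  · induction n with
    | zero =>
      have := hk (.vac a 0)
      rw [Rop_vac_zero, zero_sub, neg_eq_zero, smul_eq_zero] at this
      exact this.resolve_left (kap_ne_zero b)
    | succ n ih =>
      have := hk (.vac a (n + 1))
      rw [Rop_vac_succ, ih, zero_sub, neg_eq_zero, smul_eq_zero] at this
      exact this.resolve_left (kap_ne_zero b)
  · induction n with
    | zero =>
      have := hk (.one j l m 0)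
      rw [Rop_one_zero, zero_sub, neg_eq_zero, smul_eq_zero] at this
      exact this.resolve_left (kap_ne_zero b)
    | succ n ih =>
      have := hk (.one j l m (n + 1))
      rw [Rop_one_succ, ih, zero_sub, neg_eq_zero, smul_eq_zero] at this
      exact this.resolve_left (kap_ne_zero b)

lemma mul_gen_cancel (b : Fin 2) {x : L2 Idx G →L[ℂ] L2 Idx G} (hx : x ∈ algb d π b)
    (h : x * gen d π b = 0) : x = 0 := by
  have h1 : x * (Zop - bv b • 1) = 0 := by
    rw [← gen_mul_PiR_vv d π b, ← mul_assoc, h, zero_mul]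
  refine eq_zero_of_vac d π hx (fun a g => ?_)
  apply Rop_sub_injective b
  have h2 : ∀ j l m n, (sg (.vac a 0) g : L2 Idx G) (.one j l m n) = 0 := by
    intro j l m n
    rw [sg_apply_ne]
    simp
  have h3 := Zop_apply_of_one b h2
  have h4 : x ((Zop - bv b • 1 : L2 Idx G →L[ℂ] L2 Idx G) (sg (.vac a 0) g)) = 0 := by
    rw [← ContinuousLinearMap.mul_apply, h1]
    rfl
  rw [h3, map_sub, map_smul, ← ContinuousLinearMap.mul_apply, ← comm_Rop d π hx,
    ContinuousLinearMap.mul_apply] at h4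
  exact h4

/-! ### the diagonal -/

/-- operators whose row at a vacuum vector has a single entry -/
def rowAlg (a : Option (Fin 2)) : Subalgebra ℂ (L2 Idx G →L[ℂ] L2 Idx G) where
  carrier := {y | ∀ ξ : L2 Idx G, ξ (.vac a 0) = 0 → y ξ (.vac a 0) = 0}
  mul_mem' := by
    intro x y hx hy ξ hξ
    rw [ContinuousLinearMap.mul_apply]
    exact hx _ (hy _ hξ)
  add_mem' := by
    intro x y hx hy ξ hξ
    rw [ContinuousLinearMap.add_apply, lp.coeFn_add, Pi.add_apply, hx _ hξ, hy _ hξ, add_zero]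
  algebraMap_mem' := by
    intro r ξ hξ
    rw [Algebra.algebraMap_eq_smul_one, ContinuousLinearMap.smul_apply, lp.coeFn_smul,
      Pi.smul_apply, ContinuousLinearMap.one_apply, hξ, smul_zero]

lemma isClosed_rowAlg (a : Option (Fin 2)) :
    IsClosed ((rowAlg a : Subalgebra ℂ (L2 Idx G →L[ℂ] L2 Idx G)) :
      Set (L2 Idx G →L[ℂ] L2 Idx G)) := by
  have : ((rowAlg a : Subalgebra ℂ (L2 Idx G →L[ℂ] L2 Idx G)) :
      Set (L2 Idx G →L[ℂ] L2 Idx G)) =
      ⋂ ξ : L2 Idx G, ⋂ (_ : ξ (.vac a 0) = 0),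
        (fun y : L2 Idx G →L[ℂ] L2 Idx G => (ev (.vac a 0) : L2 Idx G →L[ℂ] G) (y ξ)) ⁻¹' {0} := by
    ext y
    simp only [Set.mem_iInter, Set.mem_preimage, Set.mem_singleton_iff]
    rfl
  rw [this]
  refine isClosed_iInter (fun ξ => isClosed_iInter (fun _ => ?_))
  refine isClosed_singleton.preimage ?_
  exact (ev (.vac a 0) : L2 Idx G →L[ℂ] G).continuous.comp
    (ContinuousLinearMap.apply ℂ (L2 Idx G) ξ).continuous

lemma row_zero {b : Fin 2} {x : L2 Idx G →L[ℂ] L2 Idx G} (hx : x ∈ algb d π b)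
    (a : Option (Fin 2)) {ξ : L2 Idx G} (hξ : ξ (.vac a 0) = 0) : x ξ (.vac a 0) = 0 := by
  have : algb d π b ≤ rowAlg a := by
    refine algb_le d π (isClosed_rowAlg a) ?_ ?_
    · intro c ζ hζ
      rw [PiR_eq, dg_apply, hζ, map_zero]
    · intro ζ hζ
      rw [gen_vac_zero, hζ, map_zero, smul_zero, neg_zero]
  exact this hx ξ hξ

lemma col_zero {b : Fin 2} {x : L2 Idx G →L[ℂ] L2 Idx G} (hx : star x ∈ algb d π b)
    (a : Option (Fin 2)) (g : G) {k : Idx} (hk : k ≠ .vac a 0) : x (sg (.vac a 0) g) k = 0 := by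
  rw [← inner_self_eq_zero (𝕜 := ℂ)]
  set h := x (sg (.vac a 0) g) k with hh
  have h1 : inner ℂ h h = inner ℂ (sg k h : L2 Idx G) (x (sg (.vac a 0) g)) := by
    rw [inner_sg_left]
  rw [h1, ← ContinuousLinearMap.adjoint_inner_left, inner_sg_right,
    ← ContinuousLinearMap.star_eq_adjoint, row_zero d π hx, inner_zero_left]
  exact sg_apply_ne (Ne.symm hk) h

lemma sg_col {b : Fin 2} {x : L2 Idx G →L[ℂ] L2 Idx G} (hx : star x ∈ algb d π b)
    (a : Option (Fin 2)) (g : G) :
    x (sg (.vac a 0) g) = sg (.vac a 0) (x (sg (.vac a 0) g) (.vac a 0)) := by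
  ext k
  by_cases hk : k = .vac a 0
  · subst hk
    rw [sg_apply_self]
  · rw [sg_apply_ne hk, col_zero d π hx a g hk]

lemma dg_sg (y : Option (Fin 2) → (G →L[ℂ] G)) (o : Option (Fin 2)) (n : ℕ) (g : G) :
    dg y (sg (.vac o n) g) = sg (.vac o n) (y o g) := by
  ext k
  rw [dg_apply]
  by_cases h : k = .vac o n
  · subst h
    rw [sg_apply_self, sg_apply_self]
    rfl
  · rw [sg_apply_ne h, sg_apply_ne h, map_zero]

section closed

variable (hπ : Function.Injective π)

include hπ in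
lemma PiR_injective [Nontrivial G] : Function.Injective (PiR π) := by
  intro x y h
  have hk : ∀ (k : Idx) (g : G), rho π x (lab k) g = rho π y (lab k) g := by
    intro k g
    have h1 : PiR π x (sg k g) k = PiR π y (sg k g) k := by rw [h]
    rwa [PiR_eq, PiR_eq, dg_apply, dg_apply, sg_apply_self] at h1
  ext1
  · apply hπ
    ext1 g
    exact hk (.vac none 0) g
  · ext1 l
    obtain ⟨g, hg⟩ := exists_ne (0 : G)
    have := hk (.vac (some l) 0) g
    have h2 : x.2 l • g = y.2 l • g := this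
    exact smul_left_injective ℂ hg h2

include hπ in
lemma isClosed_range_PiR [Nontrivial G] : IsClosed (Set.range (PiR π)) := by
  have h1 : Isometry (PiR π) := by
    refine AddMonoidHomClass.isometry_of_norm _ (fun x => ?_)
    exact NonUnitalStarAlgHom.norm_map (PiR π) (PiR_injective π hπ) x
  exact h1.isClosedEmbedding.isClosed_range

lemma Emap_mspan {b : Fin 2} {x : L2 Idx G →L[ℂ] L2 Idx G} (hx : x ∈ mspan d π b) :
    Emap b x ∈ Set.range (PiR π) := by
  have : mspan d π b ≤ (LinearMap.range (PiR π : Alg D →⋆ₐ[ℂ] _).toAlgHom.toLinearMap).comap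
      (Emap b : (L2 Idx G →L[ℂ] L2 Idx G) →L[ℂ] (L2 Idx G →L[ℂ] L2 Idx G)).toLinearMap := by
    refine Submodule.span_le.2 ?_
    rintro _ ⟨⟨k, a⟩, rfl⟩
    rw [SetLike.mem_coe, Submodule.mem_comap, LinearMap.mem_range]
    rcases k with _ | k
    · refine ⟨a, ?_⟩
      simp only [pow_zero, one_mul]
      exact (Emap_PiR π b a).symm
    · refine ⟨0, ?_⟩
      simp only [pow_succ', mul_assoc]
      rw [map_zero]
      exact (Emap_gen_mul d π b _).symm
  obtain ⟨a, ha⟩ := this hx
  exact ⟨a, ha⟩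

include hπ in
lemma Emap_range [Nontrivial G] {b : Fin 2} {x : L2 Idx G →L[ℂ] L2 Idx G}
    (hx : x ∈ algb d π b) : Emap b x ∈ Set.range (PiR π) := by
  have hc : IsClosed ((Emap b : (L2 Idx G →L[ℂ] L2 Idx G) →L[ℂ] (L2 Idx G →L[ℂ] L2 Idx G)) ⁻¹'
      (Set.range (PiR π))) :=
    (isClosed_range_PiR π hπ).preimage (Emap b).continuous
  exact algb_induction d π hc (fun y hy => Emap_mspan d π hy) hx

include hπ in
lemma Emap_mem [Nontrivial G] {b : Fin 2} {x : L2 Idx G →L[ℂ] L2 Idx G}
    (hx : x ∈ algb d π b) : Emap b x ∈ algb d π b := by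
  obtain ⟨a, ha⟩ := Emap_range d π hπ hx
  rw [← ha]
  exact PiR_mem d π b a

include hπ in
/-- the diagonal -/
lemma Emap_eq_self [Nontrivial G] {b : Fin 2} {x : L2 Idx G →L[ℂ] L2 Idx G}
    (hx : x ∈ algb d π b) (hx' : star x ∈ algb d π b) : Emap b x = x := by
  have h1 : x - Emap b x = 0 := by
    refine eq_zero_of_vac d π (Subalgebra.sub_mem _ hx (Emap_mem d π hπ hx)) (fun a g => ?_)
    rw [ContinuousLinearMap.sub_apply, Emap_apply, dg_sg, sandw_apply, sg_col d π hx', eb_sg,
      ← sg_col d π hx', sub_self]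
  exact (sub_eq_zero.1 h1).symm

lemma Emap_idem_mspan {b : Fin 2} (a : Alg D) : Emap b (PiR π a) = PiR π a := Emap_PiR π b a

include hπ in
lemma Emap_mul [Nontrivial G] {b : Fin 2} {x : L2 Idx G →L[ℂ] L2 Idx G}
    (hx : x ∈ algb d π b) (y : L2 Idx G →L[ℂ] L2 Idx G) :
    Emap b (x * y) = Emap b x * Emap b y := by
  have hc : IsClosed {z : L2 Idx G →L[ℂ] L2 Idx G | Emap b (z * y) = Emap b z * Emap b y} := by
    refine isClosed_eq ?_ ?_
    · exact (Emap b).continuous.comp (continuous_mul_const y)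
    · exact (Emap b).continuous.mul continuous_const
  refine algb_induction d π hc (fun z hz => ?_) hx
  rw [mspan] at hz
  induction hz using Submodule.span_induction with
  | mem z hz =>
    obtain ⟨⟨k, a⟩, rfl⟩ := hz
    simp only [Set.mem_setOf_eq]
    rcases k with _ | k
    · rw [pow_zero, one_mul, Emap_PiR_mul, Emap_PiR]
    · rw [pow_succ', mul_assoc (gen d π b), mul_assoc (gen d π b), Emap_gen_mul, Emap_gen_mul,
        zero_mul]
  | zero =>
    simp only [Set.mem_setOf_eq]
    rw [zero_mul, map_zero, zero_mul]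
  | add z w _ _ hz hw =>
    simp only [Set.mem_setOf_eq] at hz hw ⊢
    rw [add_mul, map_add, map_add, hz, hw, add_mul]
  | smul c z _ hz =>
    simp only [Set.mem_setOf_eq] at hz ⊢
    rw [smul_mul_assoc, map_smul, map_smul, hz, smul_mul_assoc]

lemma Fmap_mspan {b : Fin 2} {x : L2 Idx G →L[ℂ] L2 Idx G} (hx : x ∈ mspan d π b) :
    ∃ a, Fmap d π b x = gen d π b * PiR π a := by
  rw [mspan] at hx
  induction hx using Submodule.span_induction with
  | mem z hz =>
    obtain ⟨⟨k, a⟩, rfl⟩ := hz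
    rcases k with _ | k
    · exact ⟨0, by simp only [pow_zero, one_mul]; rw [Fmap_PiR, map_zero, mul_zero]⟩
    · simp only
      rw [pow_succ', mul_assoc, Fmap_gen_mul]
      rcases k with _ | k
      · exact ⟨a, by rw [pow_zero, one_mul, Emap_PiR]⟩
      · exact ⟨0, by rw [pow_succ', mul_assoc, Emap_gen_mul, map_zero, mul_zero]⟩
  | zero => exact ⟨0, by rw [map_zero, map_zero, mul_zero]⟩
  | add z w _ _ hz hw =>
    obtain ⟨a, ha⟩ := hz
    obtain ⟨a', ha'⟩ := hw
    exact ⟨a + a', by rw [map_add, ha, ha', map_add, mul_add]⟩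
  | smul c z _ hz =>
    obtain ⟨a, ha⟩ := hz
    exact ⟨c • a, by rw [map_smul, ha, map_smul, mul_smul_comm]⟩

lemma Fmap_mem {b : Fin 2} {x : L2 Idx G →L[ℂ] L2 Idx G} (hx : x ∈ algb d π b) :
    Fmap d π b x ∈ algb d π b := by
  have hc : IsClosed ((Fmap d π b : (L2 Idx G →L[ℂ] L2 Idx G) →L[ℂ] (L2 Idx G →L[ℂ] L2 Idx G)) ⁻¹'
      (algb d π b : Set (L2 Idx G →L[ℂ] L2 Idx G))) :=
    (isClosed_algb d π b).preimage (Fmap d π b).continuous
  refine algb_induction d π hc (fun y hy => ?_) hx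
  obtain ⟨a, ha⟩ := Fmap_mspan d π hy
  rw [Set.mem_preimage, ha]
  exact Subalgebra.mul_mem _ (gen_mem d π b) (PiR_mem d π b a)

lemma Fmap_gen_PiR (b : Fin 2) (a : Alg D) :
    Fmap d π b (gen d π b * PiR π a) = gen d π b * PiR π a := by
  rw [Fmap_gen_mul, Emap_PiR]

lemma Fmap_idem {b : Fin 2} {x : L2 Idx G →L[ℂ] L2 Idx G} (hx : x ∈ algb d π b) :
    Fmap d π b (Fmap d π b x) = Fmap d π b x := by
  have hc : IsClosed {z : L2 Idx G →L[ℂ] L2 Idx G | Fmap d π b (Fmap d π b z) = Fmap d π b z} :=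
    isClosed_eq ((Fmap d π b).continuous.comp (Fmap d π b).continuous) (Fmap d π b).continuous
  refine algb_induction d π hc (fun y hy => ?_) hx
  obtain ⟨a, ha⟩ := Fmap_mspan d π hy
  rw [Set.mem_setOf_eq, ha, Fmap_gen_PiR]

end closed

end inj

end

end Pool.Agent.Lib.MP_4b5f87_an
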