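import Mathlib

set_option autoImplicit false

/-!
Operators on `ℓ²(I, G)` whose matrix has at most one entry in every row and column.
-/

namespace Pool.Agent.Lib.MP_4b5f87_an

open scoped ENNReal

noncomputable section

/-- the Hilbert space of square summable `G`-valued families -/
abbrev L2 (I G : Type*) [NormedAddCommGroup G] := lp (fun _ : I => G) 2

section bop

variable {I J G G' : Type*}
  [NormedAddCommGroup G] [InnerProductSpace ℂ G]
  [NormedAddCommGroup G'] [InnerProductSpace ℂ G']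

/-- row `k` of the output is `T k` applied to row `g k` of the input (zero if `g k = none`) -/
def bopFun (g : I → Option J) (T : I → G →L[ℂ] G') (ξ : J → G) (k : I) : G' :=
  (g k).elim 0 (fun i => T k (ξ i))

/-- `g` is injective on its support -/
def PInj (g : I → Option J) : Prop := ∀ k k' i, g k = some i → g k' = some i → k = k'

lemma bop_sum_le {g : I → Option J} (hg : PInj g) {T : I → G →L[ℂ] G'} {C : ℝ}
    (hC : 0 ≤ C) (hT : ∀ k, ‖T k‖ ≤ C) (ξ : L2 J G) (s : Finset I) :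
    ∑ k ∈ s, ‖bopFun g T ξ k‖ ^ (2 : ℝ) ≤ (C * ‖ξ‖) ^ (2 : ℝ) := by
  classical
  have h1 : ∀ k ∈ s, ‖bopFun g T ξ k‖ ^ (2 : ℝ) ≤
      ∑ i ∈ (g k).toFinset, C ^ (2 : ℝ) * ‖ξ i‖ ^ (2 : ℝ) := by
    intro k _
    rcases hk : g k with _ | i
    · simp [bopFun, hk]
    · simp only [bopFun, hk, Option.elim, Option.toFinset_some, Finset.sum_singleton]
      rw [← Real.mul_rpow hC (norm_nonneg _)]
      refine Real.rpow_le_rpow (norm_nonneg _) ?_ (by norm_num)
      exact (T k).le_of_opNorm_le (hT k) _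
  have h2 : ((s : Set I)).PairwiseDisjoint (fun k => (g k).toFinset) := by
    intro k _ k' _ hkk'
    simp only [Function.onFun, Finset.disjoint_left]
    intro i hi hi'
    rw [Option.mem_toFinset] at hi hi'
    exact hkk' (hg k k' i hi hi')
  have h3 := lp.sum_rpow_le_norm_rpow (p := 2) (by simp) ξ (s.biUnion (fun k => (g k).toFinset))
  simp only [ENNReal.toReal_ofNat] at h3
  calc ∑ k ∈ s, ‖bopFun g T ξ k‖ ^ (2 : ℝ)
      ≤ ∑ k ∈ s, ∑ i ∈ (g k).toFinset, C ^ (2 : ℝ) * ‖ξ i‖ ^ (2 : ℝ) := Finset.sum_le_sum h1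
    _ = ∑ i ∈ s.biUnion (fun k => (g k).toFinset), C ^ (2 : ℝ) * ‖ξ i‖ ^ (2 : ℝ) :=
        (Finset.sum_biUnion h2).symm
    _ = C ^ (2 : ℝ) * ∑ i ∈ s.biUnion (fun k => (g k).toFinset), ‖ξ i‖ ^ (2 : ℝ) := by
        rw [Finset.mul_sum]
    _ ≤ C ^ (2 : ℝ) * ‖ξ‖ ^ (2 : ℝ) := mul_le_mul_of_nonneg_left h3 (by positivity)
    _ = (C * ‖ξ‖) ^ (2 : ℝ) := (Real.mul_rpow hC (norm_nonneg _)).symm

/-- the operator with rows given by `g` and `T` -/
def bop (g : I → Option J) (hg : PInj g) (T : I → G →L[ℂ] G') (C : ℝ) (hC : 0 ≤ C)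
    (hT : ∀ k, ‖T k‖ ≤ C) : L2 J G →L[ℂ] L2 I G' :=
  LinearMap.mkContinuous
    { toFun := fun ξ => ⟨bopFun g T ξ, memℓp_gen' (C := (C * ‖ξ‖) ^ (2 : ℝ)) (fun s => by
        simpa using bop_sum_le hg hC hT ξ s)⟩
      map_add' := fun ξ η => by
        ext k
        simp only [bopFun, lp.coeFn_add, Pi.add_apply]
        rcases g k with _ | i <;> simp
      map_smul' := fun c ξ => by
        ext k
        simp only [bopFun, lp.coeFn_smul, Pi.smul_apply, RingHom.id_apply]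
        rcases g k with _ | i <;> simp } C (fun ξ => by
      refine lp.norm_le_of_forall_sum_le (by simp) (by positivity) (fun s => ?_)
      simpa using bop_sum_le hg hC hT ξ s)

lemma bop_apply (g : I → Option J) (hg : PInj g) (T : I → G →L[ℂ] G') (C : ℝ) (hC : 0 ≤ C)
    (hT : ∀ k, ‖T k‖ ≤ C) (ξ : L2 J G) (k : I) :
    bop g hg T C hC hT ξ k = (g k).elim 0 (fun i => T k (ξ i)) := rfl

lemma norm_bop_le (g : I → Option J) (hg : PInj g) (T : I → G →L[ℂ] G') (C : ℝ) (hC : 0 ≤ C)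
    (hT : ∀ k, ‖T k‖ ≤ C) : ‖bop g hg T C hC hT‖ ≤ C :=
  LinearMap.mkContinuous_norm_le _ hC _

end bop

section evsg

variable {I G : Type*} [DecidableEq I] [NormedAddCommGroup G] [InnerProductSpace ℂ G]

/-- evaluation at a coordinate -/
def ev (i : I) : L2 I G →L[ℂ] G := lp.evalCLM ℂ (fun _ : I => G) 2 i

/-- inclusion of a coordinate -/
def sg (i : I) : G →L[ℂ] L2 I G := lp.singleContinuousLinearMap ℂ (fun _ : I => G) 2 i

omit [DecidableEq I] in
lemma ev_apply (i : I) (ξ : L2 I G) : ev i ξ = ξ i := rfl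

lemma sg_apply_self (i : I) (x : G) : (sg i x : L2 I G) i = x := by
  simp [sg]

lemma sg_apply_ne {i j : I} (h : j ≠ i) (x : G) : (sg i x : L2 I G) j = 0 := by
  simp [sg, lp.single_apply_ne, h]

lemma sg_apply (i j : I) (x : G) : (sg i x : L2 I G) j = if j = i then x else 0 := by
  by_cases h : j = i
  · subst h; simp [sg_apply_self]
  · simp [sg_apply_ne h, h]

lemma norm_sg (i : I) (x : G) : ‖(sg i x : L2 I G)‖ = ‖x‖ := by
  simp [sg, lp.norm_single]

omit [DecidableEq I] in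
lemma norm_ev_le (i : I) : ‖(ev i : L2 I G →L[ℂ] G)‖ ≤ 1 := by
  refine ContinuousLinearMap.opNorm_le_bound _ zero_le_one (fun ξ => ?_)
  rw [one_mul]
  exact lp.norm_apply_le_norm (by simp) ξ i

omit [DecidableEq I] in
lemma norm_coe_le (ξ : L2 I G) (i : I) : ‖ξ i‖ ≤ ‖ξ‖ := lp.norm_apply_le_norm (by simp) ξ i

lemma norm_sg_le (i : I) : ‖(sg i : G →L[ℂ] L2 I G)‖ ≤ 1 := by
  refine ContinuousLinearMap.opNorm_le_bound _ zero_le_one (fun ξ => ?_)
  rw [one_mul, norm_sg]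

lemma inner_sg_left (i : I) (x : G) (ξ : L2 I G) : inner ℂ (sg i x) ξ = inner ℂ x (ξ i) :=
  lp.inner_single_left i x ξ

lemma inner_sg_right (i : I) (x : G) (ξ : L2 I G) : inner ℂ ξ (sg i x) = inner ℂ (ξ i) x :=
  lp.inner_single_right i x ξ

lemma ext_sg {F : Type*} [NormedAddCommGroup F] [NormedSpace ℂ F] {f g : L2 I G →L[ℂ] F}
    (h : ∀ i x, f (sg i x) = g (sg i x)) : f = g := by
  refine lp.ext_continuousLinearMap (by simp) (fun i => ?_)
  ext x
  exact h i x

end evsg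

end

end Pool.Agent.Lib.MP_4b5f87_an
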