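import Pool.Agent.Lib.MP_4b5f87_an.L2Tools

set_option autoImplicit false
set_option linter.unusedSectionVars false

/-!
The operator algebra with two base points.
-/

namespace Pool.Agent.Lib.MP_4b5f87_an

open scoped ENNReal

noncomputable section

/-- the projections and partial isometries in `D` which define the two endomorphisms -/
structure Dat (D : Type*) [CStarAlgebra D] where
  /-- an isometry -/
  s : D
  /-- the two decompositions of `1 - s s*` -/
  q : Fin 2 → Fin 2 → D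
  /-- the intertwiners -/
  W : Fin 2 → Fin 2 → Fin 2 → D
  hs : star s * s = 1
  hq_sa : ∀ b l, star (q b l) = q b l
  hq_idem : ∀ b l, q b l * q b l = q b l
  hqq : ∀ b l l', l ≠ l' → q b l * q b l' = 0
  hsum : ∀ b, s * star s + (q b 0 + q b 1) = 1
  hqs : ∀ b l, q b l * s = 0
  hWself : ∀ b l, W b b l = q b l
  hWq : ∀ b j l, W b j l * q b l = W b j l
  hqW : ∀ b j l, q j l * W b j l = W b j l
  hWW : ∀ b j l, W b j l * star (W b j l) = q j l

namespace Dat

variable {D : Type*} [CStarAlgebra D] (d : Dat D)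

lemma hsq (b l : Fin 2) : star d.s * d.q b l = 0 := by
  have := congrArg star (d.hqs b l)
  rwa [star_mul, d.hq_sa, star_zero] at this

lemma hWs (b j l : Fin 2) : d.W b j l * d.s = 0 := by
  rw [← d.hWq, mul_assoc, d.hqs, mul_zero]

lemma hWW' (b j : Fin 2) {l l' : Fin 2} (h : l ≠ l') : d.W b j l * star (d.W b j l') = 0 := by
  rw [← d.hWq b j l, ← d.hWq b j l', star_mul, d.hq_sa, mul_assoc, ← mul_assoc (d.q b l),
    d.hqq b l l' h, zero_mul, mul_zero]

/-- the connecting element -/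
def c (b b' j : Fin 2) : D := star (d.W b j 0) * d.W b' j 0 + star (d.W b j 1) * d.W b' j 1

lemma W_mul_c (b b' j l : Fin 2) : d.W b j l * d.c b b' j = d.W b' j l := by
  unfold c
  rw [mul_add, ← mul_assoc, ← mul_assoc]
  fin_cases l
  · simp only [Fin.zero_eta]
    rw [d.hWW, d.hWW' b j (l := 0) (l' := 1) (by decide), d.hqW, zero_mul, add_zero]
  · simp only [Fin.mk_one]
    rw [d.hWW, d.hWW' b j (l := 1) (l' := 0) (by decide), d.hqW, zero_mul, zero_add]

end Dat

/-- the coefficient algebra -/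
abbrev Alg (D : Type*) := D × (Fin 2 → ℂ)

section endo

variable {D : Type*} [CStarAlgebra D] (d : Dat D)

lemma q_expand (b : Fin 2) (l l' : Fin 2) (c c' : ℂ) :
    (c • d.q b l) * (c' • d.q b l') = if l = l' then (c * c') • d.q b l else 0 := by
  rw [smul_mul_smul_comm]
  by_cases h : l = l'
  · subst h
    rw [d.hq_idem, if_pos rfl]
  · rw [d.hqq b l l' h, smul_zero, if_neg h]

/-- the endomorphism `(x, c) ↦ (s x s* + c 0 q_0 + c 1 q_1, c)` -/
def endo (b : Fin 2) : Alg D →⋆ₐ[ℂ] Alg D where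
  toFun a := (d.s * a.1 * star d.s + (a.2 0 • d.q b 0 + a.2 1 • d.q b 1), a.2)
  map_one' := by
    ext1
    · simp [d.hsum b]
    · rfl
  map_mul' x y := by
    ext1
    · simp only [Prod.fst_mul, Prod.snd_mul, Pi.mul_apply]
      have h1 : d.s * x.1 * star d.s * (d.s * y.1 * star d.s) = d.s * (x.1 * y.1) * star d.s := by
        calc d.s * x.1 * star d.s * (d.s * y.1 * star d.s)
            = d.s * x.1 * (star d.s * d.s) * y.1 * star d.s := by noncomm_ring
          _ = _ := by rw [d.hs]; noncomm_ring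
      have h2 : ∀ l, ∀ c : ℂ, d.s * x.1 * star d.s * (c • d.q b l) = 0 := by
        intro l c
        rw [mul_smul_comm, mul_assoc, d.hsq, mul_zero, smul_zero]
      have h3 : ∀ l, ∀ c : ℂ, (c • d.q b l) * (d.s * y.1 * star d.s) = 0 := by
        intro l c
        rw [smul_mul_assoc, ← mul_assoc, ← mul_assoc, d.hqs, zero_mul, zero_mul, smul_zero]
      simp only [add_mul, mul_add, h1, h2, h3, q_expand]
      simp
    · rfl
  map_zero' := by
    ext1
    · simp
    · rfl
  map_add' x y := by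
    ext1
    · simp only [Prod.fst_add, Prod.snd_add, Pi.add_apply, mul_add, add_mul, add_smul]
      abel
    · rfl
  commutes' c := by
    ext1
    · simp only [Prod.algebraMap_apply, Pi.algebraMap_apply]
      rw [Algebra.algebraMap_eq_smul_one, mul_smul_comm, mul_one, smul_mul_assoc]
      simp only [Algebra.algebraMap_eq_smul_one, smul_eq_mul, mul_one]
      rw [← smul_add, ← smul_add, d.hsum b]
    · rfl
  map_star' x := by
    ext1
    · simp only [Prod.fst_star, Prod.snd_star, Pi.star_apply, star_add, star_mul, star_star,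
        star_smul, d.hq_sa, mul_assoc]
    · rfl

lemma endo_fst (b : Fin 2) (a : Alg D) :
    (endo d b a).1 = d.s * a.1 * star d.s + (a.2 0 • d.q b 0 + a.2 1 • d.q b 1) := rfl

lemma endo_snd (b : Fin 2) (a : Alg D) : (endo d b a).2 = a.2 := rfl

/-- the isometry which intertwines the identity and both endomorphisms -/
def vv : Alg D := (d.s, 1)

lemma star_vv_mul : star (vv d) * vv d = 1 := by
  ext1
  · simp [vv, d.hs]
  · simp [vv]

lemma star_s_mul_endo (b : Fin 2) (a : Alg D) :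
    star d.s * (endo d b a).1 = a.1 * star d.s := by
  rw [endo_fst, mul_add, mul_add, mul_smul_comm, mul_smul_comm, d.hsq, d.hsq, smul_zero,
    smul_zero, add_zero, add_zero, ← mul_assoc, ← mul_assoc, d.hs, one_mul]

lemma W_mul_endo (b j l : Fin 2) (a : Alg D) :
    d.W b j l * (endo d b a).1 = a.2 l • d.W b j l := by
  rw [endo_fst, mul_add, mul_add, mul_smul_comm, mul_smul_comm, ← mul_assoc, ← mul_assoc, d.hWs,
    zero_mul, zero_mul, zero_add]
  have h : ∀ l', d.W b j l * d.q b l' = if l = l' then d.W b j l else 0 := by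
    intro l'
    by_cases h : l = l'
    · subst h; rw [d.hWq, if_pos rfl]
    · rw [← d.hWq, mul_assoc, d.hqq b l l' h, mul_zero, if_neg h]
  rw [h, h]
  fin_cases l <;> simp

end endo

/-! ### The Hilbert space and the operators -/

/-- index set: `vac a n` is the level-zero part (`a = none` for the `D`-part), `one j l m n` the
level-one part near base point `j` -/
inductive Idx : Type
  | vac (a : Option (Fin 2)) (n : ℕ) : Idx
  | one (j l : Fin 2) (m n : ℕ) : Idx
  deriving DecidableEq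

/-- which coefficient acts on a coordinate -/
def lab : Idx → Option (Fin 2)
  | .vac a _ => a
  | .one _ l _ _ => some l

section ops

variable {G : Type*} [NormedAddCommGroup G] [InnerProductSpace ℂ G] [CompleteSpace G]

lemma pinj_some {I : Type*} : PInj (fun i : I => some i) := by
  intro k k' i h h'
  simp only [Option.some.injEq] at h h'
  rw [h, h']

/-- block diagonal operator with entries chosen by the label -/
def dg (y : Option (Fin 2) → (G →L[ℂ] G)) : L2 Idx G →L[ℂ] L2 Idx G :=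
  bop (fun i => some i) pinj_some (fun k => y (lab k)) ‖y‖ (norm_nonneg _)
    (fun k => norm_le_pi_norm y (lab k))

lemma dg_apply (y : Option (Fin 2) → (G →L[ℂ] G)) (ξ : L2 Idx G) (k : Idx) :
    dg y ξ k = y (lab k) (ξ k) := rfl

lemma norm_dg_le (y : Option (Fin 2) → (G →L[ℂ] G)) : ‖dg y‖ ≤ ‖y‖ := norm_bop_le _ _ _ _ _ _

lemma dg_one : dg (1 : Option (Fin 2) → (G →L[ℂ] G)) = 1 := by
  ext ξ k
  rw [dg_apply]
  rfl

lemma dg_zero : dg (0 : Option (Fin 2) → (G →L[ℂ] G)) = 0 := by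
  ext ξ k
  rw [dg_apply]
  rfl

lemma dg_mul (y z : Option (Fin 2) → (G →L[ℂ] G)) : dg (y * z) = dg y * dg z := by
  ext ξ k
  simp only [dg_apply, ContinuousLinearMap.mul_apply, Pi.mul_apply]

lemma dg_add (y z : Option (Fin 2) → (G →L[ℂ] G)) : dg (y + z) = dg y + dg z := by
  ext ξ k
  simp only [dg_apply, ContinuousLinearMap.add_apply, Pi.add_apply, lp.coeFn_add]

lemma dg_smul (c : ℂ) (y : Option (Fin 2) → (G →L[ℂ] G)) : dg (c • y) = c • dg y := by
  ext ξ k
  simp only [dg_apply, ContinuousLinearMap.smul_apply, Pi.smul_apply, lp.coeFn_smul]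

lemma dg_star (y : Option (Fin 2) → (G →L[ℂ] G)) : dg (star y) = star (dg y) := by
  rw [ContinuousLinearMap.star_eq_adjoint, ContinuousLinearMap.eq_adjoint_iff]
  intro ξ η
  rw [lp.inner_eq_tsum, lp.inner_eq_tsum]
  congr 1
  ext k
  rw [dg_apply, dg_apply, Pi.star_apply, ContinuousLinearMap.star_eq_adjoint,
    ContinuousLinearMap.adjoint_inner_left]

/-- `dg` as a bounded linear map -/
def dgL : (Option (Fin 2) → (G →L[ℂ] G)) →L[ℂ] (L2 Idx G →L[ℂ] L2 Idx G) :=
  LinearMap.mkContinuous { toFun := dg, map_add' := dg_add, map_smul' := dg_smul } 1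
    (fun y => by rw [one_mul]; exact norm_dg_le y)

lemma dgL_apply (y : Option (Fin 2) → (G →L[ℂ] G)) : dgL y = dg y := rfl

variable {D : Type*} [CStarAlgebra D] (d : Dat D) (π : D →⋆ₐ[ℂ] (G →L[ℂ] G))

/-- the three block entries of an element of the coefficient algebra -/
def rho : Alg D →⋆ₐ[ℂ] (Option (Fin 2) → (G →L[ℂ] G)) where
  toFun a := fun o => match o with
    | none => π a.1
    | some l => a.2 l • (1 : G →L[ℂ] G)
  map_one' := by
    ext1 o
    rcases o with _ | l <;> simp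
  map_mul' x y := by
    ext1 o
    rcases o with _ | l
    · simp
    · simp [smul_smul, mul_comm]
  map_zero' := by
    ext1 o
    rcases o with _ | l <;> simp
  map_add' x y := by
    ext1 o
    rcases o with _ | l <;> simp [add_smul]
  commutes' c := by
    ext1 o
    rcases o with _ | l
    · simp only [Prod.algebraMap_apply, AlgHomClass.commutes, Pi.algebraMap_apply]
    · simp only [Prod.algebraMap_apply, Pi.algebraMap_apply]
      rw [Algebra.algebraMap_eq_smul_one, Algebra.algebraMap_eq_smul_one]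
      simp
  map_star' x := by
    ext1 o
    rcases o with _ | l
    · simp only [Prod.fst_star, Pi.star_apply, map_star]
    · simp only [Prod.snd_star, Pi.star_apply, star_smul, star_one]

lemma rho_none (a : Alg D) : rho π a none = π a.1 := rfl
lemma rho_some (a : Alg D) (l : Fin 2) : rho π a (some l) = a.2 l • (1 : G →L[ℂ] G) := rfl

/-- the representation of the coefficient algebra -/
def PiR : Alg D →⋆ₐ[ℂ] (L2 Idx G →L[ℂ] L2 Idx G) where
  toFun a := dg (rho π a)
  map_one' := by rw [map_one, dg_one]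
  map_mul' x y := by rw [map_mul, dg_mul]
  map_zero' := by rw [map_zero, dg_zero]
  map_add' x y := by rw [map_add, dg_add]
  commutes' c := by
    rw [Algebra.algebraMap_eq_smul_one, map_smul, map_one, dg_smul, dg_one,
      Algebra.algebraMap_eq_smul_one]
  map_star' x := by rw [map_star, dg_star]

lemma PiR_eq (a : Alg D) : PiR π a = dg (rho π a) := rfl

lemma PiR_vac_none (a : Alg D) (ξ : L2 Idx G) (n : ℕ) :
    PiR π a ξ (.vac none n) = π a.1 (ξ (.vac none n)) := rfl
lemma PiR_vac_some (a : Alg D) (ξ : L2 Idx G) (l : Fin 2) (n : ℕ) :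
    PiR π a ξ (.vac (some l) n) = a.2 l • ξ (.vac (some l) n) := rfl
lemma PiR_one (a : Alg D) (ξ : L2 Idx G) (j l : Fin 2) (m n : ℕ) :
    PiR π a ξ (.one j l m n) = a.2 l • ξ (.one j l m n) := rfl

/-- diagonal scalar operator -/
def dscal (c : Idx → ℂ) (C : ℝ) (hC : 0 ≤ C) (hc : ∀ k, ‖c k‖ ≤ C) :
    L2 Idx G →L[ℂ] L2 Idx G :=
  bop (fun i => some i) pinj_some (fun k => c k • (1 : G →L[ℂ] G)) C hC (fun k => by
    refine (norm_smul_le _ _).trans ?_
    calc ‖c k‖ * ‖(1 : G →L[ℂ] G)‖ ≤ C * 1 := by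
          refine mul_le_mul (hc k) ?_ (norm_nonneg _) hC
          exact ContinuousLinearMap.norm_id_le
      _ = C := mul_one C)

lemma dscal_apply (c : Idx → ℂ) (C : ℝ) (hC : 0 ≤ C) (hc : ∀ k, ‖c k‖ ≤ C) (ξ : L2 Idx G)
    (k : Idx) : dscal c C hC hc ξ k = c k • ξ k := rfl

lemma norm_dscal_le (c : Idx → ℂ) (C : ℝ) (hC : 0 ≤ C) (hc : ∀ k, ‖c k‖ ≤ C) :
    ‖(dscal c C hC hc : L2 Idx G →L[ℂ] L2 Idx G)‖ ≤ C := norm_bop_le _ _ _ _ _ _

/-- numerical value of a base point -/
def bv (b : Fin 2) : ℂ := if b = 0 then 0 else 1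

lemma bv_zero : bv 0 = 0 := rfl
lemma bv_one : bv 1 = 1 := rfl

lemma norm_bv_le (b : Fin 2) : ‖bv b‖ ≤ 1 := by
  fin_cases b <;> simp [bv]

lemma norm_bv_sub_half (b : Fin 2) : ‖bv b - 1 / 2‖ = 1 / 2 := by
  fin_cases b
  · simp [bv]
  · simp only [bv]
    norm_num

/-- source of the shift in row `k` -/
def gsh : Idx → Option Idx
  | .vac _ 0 => none
  | .vac a (n + 1) => some (.vac a n)
  | .one _ _ 0 _ => none
  | .one j l (m + 1) n => some (.one j l m n)

lemma gsh_pinj : PInj gsh := by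
  intro k k' i h h'
  rcases k with ⟨a, n⟩ | ⟨j, l, m, n⟩ <;> rcases k' with ⟨a', n'⟩ | ⟨j', l', m', n'⟩
  · rcases n with _ | n <;> rcases n' with _ | n' <;> simp [gsh] at h h'
    cases (h.trans h'.symm); rfl
  · rcases n with _ | n <;> rcases m' with _ | m' <;> simp [gsh] at h h'
    cases (h.trans h'.symm)
  · rcases m with _ | m <;> rcases n' with _ | n' <;> simp [gsh] at h h'
    cases (h.trans h'.symm)
  · rcases m with _ | m <;> rcases m' with _ | m' <;> simp [gsh] at h h'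
    cases (h.trans h'.symm); rfl

/-- the weight of the shift in row `k` -/
def wsh : Idx → ℂ
  | .vac _ _ => 1
  | .one _ _ _ _ => 1 / 8

lemma norm_wsh_le (k : Idx) : ‖wsh k‖ ≤ 1 := by
  rcases k with ⟨a, n⟩ | ⟨j, l, m, n⟩
  · simp [wsh]
  · simp only [wsh]; norm_num

lemma norm_smul_one_le (c : ℂ) {C : ℝ} (h : ‖c‖ ≤ C) : ‖c • (1 : G →L[ℂ] G)‖ ≤ C := by
  refine (norm_smul_le _ _).trans ?_
  calc ‖c‖ * ‖(1 : G →L[ℂ] G)‖ ≤ C * 1 := by
        refine mul_le_mul h ?_ (norm_nonneg _) ((norm_nonneg _).trans h)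
        exact ContinuousLinearMap.norm_id_le
    _ = C := mul_one C

/-- the shift -/
def sh : L2 Idx G →L[ℂ] L2 Idx G :=
  bop gsh gsh_pinj (fun k => wsh k • (1 : G →L[ℂ] G)) 1 zero_le_one
    (fun k => norm_smul_one_le _ (norm_wsh_le k))

lemma sh_vac_zero (ξ : L2 Idx G) (a : Option (Fin 2)) : sh ξ (.vac a 0) = 0 := rfl
lemma sh_vac_succ (ξ : L2 Idx G) (a : Option (Fin 2)) (n : ℕ) :
    sh ξ (.vac a (n + 1)) = ξ (.vac a n) := by
  have : sh ξ (.vac a (n + 1)) = (1 : ℂ) • ξ (.vac a n) := rfl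
  rw [this, one_smul]
lemma sh_one_zero (ξ : L2 Idx G) (j l : Fin 2) (n : ℕ) : sh ξ (.one j l 0 n) = 0 := rfl
lemma sh_one_succ (ξ : L2 Idx G) (j l : Fin 2) (m n : ℕ) :
    sh ξ (.one j l (m + 1) n) = (1 / 8 : ℂ) • ξ (.one j l m n) := rfl

/-- diagonal part of the coordinate operator -/
def zd : Idx → ℂ
  | .vac _ _ => 1 / 2
  | .one j _ _ _ => bv j

lemma norm_zd_le (k : Idx) : ‖zd k‖ ≤ 1 := by
  rcases k with ⟨a, n⟩ | ⟨j, l, m, n⟩
  · simp only [zd]; norm_num
  · exact norm_bv_le j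

/-- the coordinate operator -/
def Zop : L2 Idx G →L[ℂ] L2 Idx G := dscal zd 1 zero_le_one norm_zd_le + sh

lemma Zop_vac_zero (ξ : L2 Idx G) (a : Option (Fin 2)) :
    Zop ξ (.vac a 0) = (1 / 2 : ℂ) • ξ (.vac a 0) := by
  have : Zop ξ (.vac a 0) = (1 / 2 : ℂ) • ξ (.vac a 0) + sh ξ (.vac a 0) := rfl
  rw [this, sh_vac_zero, add_zero]
lemma Zop_vac_succ (ξ : L2 Idx G) (a : Option (Fin 2)) (n : ℕ) :
    Zop ξ (.vac a (n + 1)) = (1 / 2 : ℂ) • ξ (.vac a (n + 1)) + ξ (.vac a n) := by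
  have : Zop ξ (.vac a (n + 1)) = (1 / 2 : ℂ) • ξ (.vac a (n + 1)) + sh ξ (.vac a (n + 1)) := rfl
  rw [this, sh_vac_succ]
lemma Zop_one_zero (ξ : L2 Idx G) (j l : Fin 2) (n : ℕ) :
    Zop ξ (.one j l 0 n) = bv j • ξ (.one j l 0 n) := by
  have : Zop ξ (.one j l 0 n) = bv j • ξ (.one j l 0 n) + sh ξ (.one j l 0 n) := rfl
  rw [this, sh_one_zero, add_zero]
lemma Zop_one_succ (ξ : L2 Idx G) (j l : Fin 2) (m n : ℕ) :
    Zop ξ (.one j l (m + 1) n) = bv j • ξ (.one j l (m + 1) n) + (1 / 8 : ℂ) • ξ (.one j l m n) :=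
  rfl

/-- source of the creation operator of type `(j, l)` in row `k` -/
def gY (j l : Fin 2) : Idx → Option Idx
  | .vac _ _ => none
  | .one j' l' m n => if j' = j ∧ l' = l ∧ m = 0 then some (.vac none n) else none

lemma gY_pinj (j l : Fin 2) : PInj (gY j l) := by
  intro k k' i h h'
  rcases k with ⟨a, n⟩ | ⟨j1, l1, m, n⟩ <;> rcases k' with ⟨a', n'⟩ | ⟨j', l', m', n'⟩ <;>
    simp only [gY, reduceCtorEq] at h h'
  split_ifs at h with h1
  split_ifs at h' with h2
  obtain ⟨rfl, rfl, rfl⟩ := h1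
  obtain ⟨rfl, rfl, rfl⟩ := h2
  simp only [Option.some.injEq] at h h'
  cases (h.trans h'.symm); rfl

/-- creation operator of type `(j, l)` -/
def Yjl (j l : Fin 2) (T : G →L[ℂ] G) : L2 Idx G →L[ℂ] L2 Idx G :=
  bop (gY j l) (gY_pinj j l) (fun _ => T) ‖T‖ (norm_nonneg _) (fun _ => le_refl _)

lemma Yjl_vac (j l : Fin 2) (T : G →L[ℂ] G) (ξ : L2 Idx G) (a : Option (Fin 2)) (n : ℕ) :
    Yjl j l T ξ (.vac a n) = 0 := rfl

lemma Yjl_one (j l : Fin 2) (T : G →L[ℂ] G) (ξ : L2 Idx G) (j' l' : Fin 2) (m n : ℕ) :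
    Yjl j l T ξ (.one j' l' m n) = if j' = j ∧ l' = l ∧ m = 0 then T (ξ (.vac none n)) else 0 := by
  have : Yjl j l T ξ (.one j' l' m n) =
    (gY j l (.one j' l' m n)).elim 0 (fun i => T (ξ i)) := rfl
  rw [this]
  simp only [gY]
  split_ifs <;> rfl

/-- creation operator with entries `T j l` -/
def YT (T : Fin 2 → Fin 2 → (G →L[ℂ] G)) : L2 Idx G →L[ℂ] L2 Idx G :=
  Yjl 0 0 (T 0 0) + Yjl 0 1 (T 0 1) + Yjl 1 0 (T 1 0) + Yjl 1 1 (T 1 1)

lemma YT_vac (T : Fin 2 → Fin 2 → (G →L[ℂ] G)) (ξ : L2 Idx G) (a : Option (Fin 2)) (n : ℕ) :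
    YT T ξ (.vac a n) = 0 := by
  have : YT T ξ (.vac a n) = Yjl 0 0 (T 0 0) ξ (.vac a n) + Yjl 0 1 (T 0 1) ξ (.vac a n)
    + Yjl 1 0 (T 1 0) ξ (.vac a n) + Yjl 1 1 (T 1 1) ξ (.vac a n) := rfl
  rw [this]
  simp only [Yjl_vac, add_zero]

lemma YT_one_zero (T : Fin 2 → Fin 2 → (G →L[ℂ] G)) (ξ : L2 Idx G) (j l : Fin 2) (n : ℕ) :
    YT T ξ (.one j l 0 n) = T j l (ξ (.vac none n)) := by
  have : YT T ξ (.one j l 0 n) = Yjl 0 0 (T 0 0) ξ (.one j l 0 n)
    + Yjl 0 1 (T 0 1) ξ (.one j l 0 n)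
    + Yjl 1 0 (T 1 0) ξ (.one j l 0 n) + Yjl 1 1 (T 1 1) ξ (.one j l 0 n) := rfl
  rw [this]
  simp only [Yjl_one]
  fin_cases j <;> fin_cases l <;> simp

lemma YT_one_succ (T : Fin 2 → Fin 2 → (G →L[ℂ] G)) (ξ : L2 Idx G) (j l : Fin 2) (m n : ℕ) :
    YT T ξ (.one j l (m + 1) n) = 0 := by
  have : YT T ξ (.one j l (m + 1) n) = Yjl 0 0 (T 0 0) ξ (.one j l (m + 1) n)
    + Yjl 0 1 (T 0 1) ξ (.one j l (m + 1) n)
    + Yjl 1 0 (T 1 0) ξ (.one j l (m + 1) n) + Yjl 1 1 (T 1 1) ξ (.one j l (m + 1) n) := rfl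
  rw [this]
  simp only [Yjl_one]
  simp

/-- the action of `v*` on the label -/
def vsT (o : Option (Fin 2)) : G →L[ℂ] G := rho π (star (vv d)) o

lemma vsT_none : vsT d π none = π (star d.s) := rfl
lemma vsT_some (l : Fin 2) : vsT d π (some l) = 1 := by
  have : vsT d π (some l) = (star (1 : ℂ)) • (1 : G →L[ℂ] G) := rfl
  rw [this, star_one, one_smul]

/-- the generator attached to the base point `b` -/
def gen (b : Fin 2) : L2 Idx G →L[ℂ] L2 Idx G :=
  (Zop - bv b • 1) * PiR π (star (vv d)) + YT (fun j l => π (d.W b j l))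

/-- half-distance of the base point `b` from the centre -/
def kap (b : Fin 2) : ℂ := bv b - 1 / 2

lemma norm_kap (b : Fin 2) : ‖kap b‖ = 1 / 2 := norm_bv_sub_half b

lemma kap_ne_zero (b : Fin 2) : kap b ≠ 0 := by
  intro h
  have := norm_kap b
  rw [h, norm_zero] at this
  norm_num at this

lemma PiR_star_vv (ξ : L2 Idx G) (k : Idx) :
    PiR π (star (vv d)) ξ k = vsT d π (lab k) (ξ k) := rfl

lemma gen_vac_zero (b : Fin 2) (ξ : L2 Idx G) (a : Option (Fin 2)) :
    gen d π b ξ (.vac a 0) = -(kap b • vsT d π a (ξ (.vac a 0))) := by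
  have : gen d π b ξ (.vac a 0) = Zop (PiR π (star (vv d)) ξ) (.vac a 0)
    - bv b • (PiR π (star (vv d)) ξ (.vac a 0))
    + YT (fun j l => π (d.W b j l)) ξ (.vac a 0) := rfl
  rw [this, Zop_vac_zero, YT_vac, PiR_star_vv, add_zero, kap, sub_smul]
  simp only [lab]
  abel

lemma gen_vac_succ (b : Fin 2) (ξ : L2 Idx G) (a : Option (Fin 2)) (n : ℕ) :
    gen d π b ξ (.vac a (n + 1)) =
      -(kap b • vsT d π a (ξ (.vac a (n + 1)))) + vsT d π a (ξ (.vac a n)) := by
  have : gen d π b ξ (.vac a (n + 1)) = Zop (PiR π (star (vv d)) ξ) (.vac a (n + 1))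
    - bv b • (PiR π (star (vv d)) ξ (.vac a (n + 1)))
    + YT (fun j l => π (d.W b j l)) ξ (.vac a (n + 1)) := rfl
  rw [this, Zop_vac_succ, YT_vac, PiR_star_vv, PiR_star_vv, add_zero, kap, sub_smul]
  simp only [lab]
  abel

lemma gen_one_zero (b : Fin 2) (ξ : L2 Idx G) (j l : Fin 2) (n : ℕ) :
    gen d π b ξ (.one j l 0 n) =
      (bv j - bv b) • ξ (.one j l 0 n) + π (d.W b j l) (ξ (.vac none n)) := by
  have : gen d π b ξ (.one j l 0 n) = Zop (PiR π (star (vv d)) ξ) (.one j l 0 n)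
    - bv b • (PiR π (star (vv d)) ξ (.one j l 0 n))
    + YT (fun j l => π (d.W b j l)) ξ (.one j l 0 n) := rfl
  rw [this, Zop_one_zero, YT_one_zero, PiR_star_vv, sub_smul]
  simp only [lab, vsT_some, ContinuousLinearMap.one_apply]

lemma gen_one_succ (b : Fin 2) (ξ : L2 Idx G) (j l : Fin 2) (m n : ℕ) :
    gen d π b ξ (.one j l (m + 1) n) =
      (bv j - bv b) • ξ (.one j l (m + 1) n) + (1 / 8 : ℂ) • ξ (.one j l m n) := by
  have : gen d π b ξ (.one j l (m + 1) n) = Zop (PiR π (star (vv d)) ξ) (.one j l (m + 1) n)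
    - bv b • (PiR π (star (vv d)) ξ (.one j l (m + 1) n))
    + YT (fun j l => π (d.W b j l)) ξ (.one j l (m + 1) n) := rfl
  rw [this, Zop_one_succ, YT_one_succ, PiR_star_vv, PiR_star_vv, sub_smul]
  simp only [lab, vsT_some, ContinuousLinearMap.one_apply]
  abel

/-- the covariance relation -/
lemma PiR_mul_gen (b : Fin 2) (a : Alg D) :
    PiR π a * gen d π b = gen d π b * PiR π (endo d b a) := by
  have hn : ∀ x : G, π a.1 (vsT d π none x) = vsT d π none (π (endo d b a).1 x) := by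
    intro x
    rw [vsT_none, ← ContinuousLinearMap.mul_apply, ← ContinuousLinearMap.mul_apply, ← map_mul,
      ← map_mul, star_s_mul_endo]
  ext ξ k
  simp only [ContinuousLinearMap.mul_apply]
  rcases k with ⟨a', n⟩ | ⟨j, l, m, n⟩
  · rcases a' with _ | l
    · rcases n with _ | n
      · rw [PiR_vac_none, gen_vac_zero, gen_vac_zero, PiR_vac_none, map_neg, map_smul, hn]
      · rw [PiR_vac_none, gen_vac_succ, gen_vac_succ, PiR_vac_none, PiR_vac_none, map_add, map_neg,
          map_smul, hn, hn]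
    · rcases n with _ | n
      · rw [PiR_vac_some, gen_vac_zero, gen_vac_zero, PiR_vac_some, endo_snd, map_smul, smul_neg,
          smul_comm]
      · rw [PiR_vac_some, gen_vac_succ, gen_vac_succ, PiR_vac_some, PiR_vac_some, endo_snd, map_smul,
          map_smul, smul_add, smul_neg, smul_comm (kap b)]
  · rcases m with _ | m
    · rw [PiR_one, gen_one_zero, gen_one_zero, PiR_one, endo_snd, PiR_vac_none, smul_add,
        ← ContinuousLinearMap.mul_apply (π (d.W b j l)), ← map_mul, W_mul_endo, map_smul, smul_comm]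
      rfl
    · rw [PiR_one, gen_one_succ, gen_one_succ, PiR_one, PiR_one, endo_snd, smul_add, smul_comm,
        smul_comm (1 / 8 : ℂ)]

end ops

end

end Pool.Agent.Lib.MP_4b5f87_an
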