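import Pool.Agent.Lib.MP_4b5f87_an.Concrete

set_option autoImplicit false
set_option linter.unusedSectionVars false
set_option linter.deprecated false
set_option linter.unusedSimpArgs false

/-!
The representation of the concrete algebra, and the invariant which separates the two systems.
-/

namespace Pool.Agent.Lib.MP_4b5f87_an

open scoped ENNReal Topology

noncomputable section

/-! ### a faithful representation -/

/-- the space of the faithful representation -/
abbrev Gc := L2 (Fin 2) Hc

/-- block diagonal operator -/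
def dg2 (y : Fin 2 → BH) : Gc →L[ℂ] Gc :=
  bop (fun i => some i) pinj_some (fun k => y k) ‖y‖ (norm_nonneg _)
    (fun k => norm_le_pi_norm y k)

lemma dg2_apply (y : Fin 2 → BH) (ξ : Gc) (k : Fin 2) : dg2 y ξ k = y k (ξ k) := rfl

/-- the two entries of an element of the coefficient algebra -/
def prc (z : Dc) (k : Fin 2) : BH := if k = 0 then z.1.1 else z.1.2

/-- the faithful representation -/
def pic : Dc →⋆ₐ[ℂ] (Gc →L[ℂ] Gc) where
  toFun z := dg2 (prc z)
  map_one' := by
    ext ξ k
    rw [dg2_apply, prc]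
    split_ifs <;> rfl
  map_mul' x y := by
    ext1 ξ
    ext1
    funext k
    rw [dg2_apply, ContinuousLinearMap.mul_apply, dg2_apply, dg2_apply, prc, prc, prc]
    split_ifs <;> rfl
  map_zero' := by
    ext ξ k
    rw [dg2_apply, prc]
    split_ifs <;> rfl
  map_add' x y := by
    ext1 ξ
    ext1
    funext k
    have h : (dg2 (prc x) + dg2 (prc y)) ξ k = prc x k (ξ k) + prc y k (ξ k) := rfl
    rw [h, dg2_apply, prc, prc, prc]
    split_ifs <;> rfl
  commutes' c := by
    ext1 ξ
    ext1
    funext k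
    have h : algebraMap ℂ (Gc →L[ℂ] Gc) c ξ k = c • ξ k := by
      rw [Algebra.algebraMap_eq_smul_one]
      rfl
    rw [h, dg2_apply, prc]
    split_ifs
    · have h2 : (algebraMap ℂ Dc c).1.1 = c • (1 : BH) := by
        rw [← Algebra.algebraMap_eq_smul_one]
        rfl
      rw [h2]
      rfl
    · have h2 : (algebraMap ℂ Dc c).1.2 = c • (1 : BH) := by
        rw [← Algebra.algebraMap_eq_smul_one]
        rfl
      rw [h2]
      rfl
  map_star' x := by
    rw [ContinuousLinearMap.star_eq_adjoint, ContinuousLinearMap.eq_adjoint_iff]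
    intro ξ η
    rw [lp.inner_eq_tsum, lp.inner_eq_tsum]
    congr 1
    ext k
    rw [dg2_apply, dg2_apply, prc, prc]
    split_ifs
    · have h : (star x).1.1 = ContinuousLinearMap.adjoint x.1.1 := rfl
      rw [h, ContinuousLinearMap.adjoint_inner_left]
    · have h : (star x).1.2 = ContinuousLinearMap.adjoint x.1.2 := rfl
      rw [h, ContinuousLinearMap.adjoint_inner_left]

lemma pic_injective : Function.Injective pic := by
  intro x y h
  have hk : ∀ (k : Fin 2) (g : Hc), prc x k g = prc y k g := by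
    intro k g
    have h1 : pic x (sg k g) k = pic y (sg k g) k := by rw [h]
    have h2 : ∀ z : Dc, pic z (sg k g) k = prc z k g := by
      intro z
      have h3 : pic z (sg k g) k = prc z k ((sg k g : Gc) k) := rfl
      rw [h3, sg_apply_self]
    rwa [h2, h2] at h1
  apply Subtype.ext
  ext1
  · ext1 g
    exact hk 0 g
  · ext1 g
    exact hk 1 g

instance : Nontrivial Gc := by
  refine ⟨⟨sg 0 (sg 0 (1 : ℂ)), 0, ?_⟩⟩
  intro h
  have h1 : ((sg 0 (sg 0 (1 : ℂ) : Hc) : Gc) 0 : Hc) = 0 := by rw [h]; rfl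
  rw [sg_apply_self] at h1
  have h2 : ((sg 0 (1 : ℂ) : Hc) 0 : ℂ) = 0 := by rw [h1]; rfl
  rw [sg_apply_self] at h2
  exact one_ne_zero h2

/-! ### a compact perturbation of the identity which is isometric is unitary -/

lemma isometry_compact {V : BH} (h1 : star V * V = 1)
    (h2 : IsCompactOperator ((1 - V : BH) : Hc → Hc)) : V * star V = 1 := by
  have h3 := IsCompactOperator.hasEigenvalue_or_mem_resolventSet (𝕜 := ℂ) (T := (1 - V : BH)) (μ := 1) h2
    one_ne_zero
  have hV : ∀ x, V x = 0 → x = 0 := by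
    intro x hx
    have : (star V * V) x = x := by rw [h1]; rfl
    rw [ContinuousLinearMap.mul_apply, hx, map_zero] at this
    exact this.symm
  rcases h3 with h3 | h3
  · exfalso
    obtain ⟨x, hx⟩ := h3.exists_hasEigenvector
    have h4 := hx.apply_eq_smul
    have h5 : (1 - V : BH) x = (1 : ℂ) • x := h4
    rw [one_smul, ContinuousLinearMap.sub_apply, ContinuousLinearMap.one_apply] at h5
    have h6 : V x = 0 := by
      have := sub_eq_self.1 h5
      exact this
    exact hx.2 (hV x h6)
  · rw [spectrum.mem_resolventSet_iff] at h3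
    have h4 : algebraMap ℂ BH 1 - (1 - V) = V := by
      rw [map_one]
      abel
    rw [h4] at h3
    obtain ⟨u, hu⟩ := h3
    have h5 : (V * star V) * V = 1 * V := by rw [mul_assoc, h1, mul_one, one_mul]
    rw [← hu] at h5 ⊢
    exact u.isUnit.mul_left_injective h5

lemma range_proj_eq {σ τ : BH} (hσ : star σ * σ = 1) (hτ : star τ * τ = 1)
    (hc : Cpt (σ - τ)) (hle : σ * star σ * τ = τ) : σ * star σ = τ * star τ := by
  have hV : star (star σ * τ) * (star σ * τ) = 1 := by
    rw [star_mul, star_star, mul_assoc, ← mul_assoc σ, hle, hτ]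
  have hK : IsCompactOperator ((1 - star σ * τ : BH) : Hc → Hc) := by
    have h : (1 - star σ * τ : BH) = -(star (σ - τ) * τ) := by
      rw [star_sub, sub_mul, hτ]
      abel
    rw [h]
    exact ((hc.star'.mul_right τ).neg).1
  have h1 := isometry_compact hV hK
  rw [star_mul, star_star] at h1
  have hle' : star τ * (σ * star σ) = star τ := by
    have := congrArg star hle
    rwa [star_mul, star_mul, star_star] at this
  calc σ * star σ = σ * (star σ * τ * (star τ * σ)) * star σ := by rw [h1, mul_one]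
    _ = (σ * star σ * τ) * (star τ * (σ * star σ)) := by noncomm_ring
    _ = τ * star τ := by rw [hle, hle']

lemma P_ne_zero : So 1 * Eo * star (So 1) ≠ 0 := by
  intro h
  apply Eo_ne_zero
  have h1 : star (So 1) * (So 1 * Eo * star (So 1)) * So 1 = Eo := by
    have h11 := gensH.h11
    have h11' : star (So 1) * So 1 = 1 := h11
    calc star (So 1) * (So 1 * Eo * star (So 1)) * So 1
        = (star (So 1) * So 1) * Eo * (star (So 1) * So 1) := by noncomm_ring
      _ = Eo := by rw [h11', one_mul, mul_one]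
  rw [← h1, h, mul_zero, zero_mul]

/-- the projections `q 1 0` and `q 1 1` are not range projections of isometries -/
lemma no_isometry (τ : Dc) (h1 : star τ * τ = 1) (l : Fin 2) : τ * star τ ≠ datc.q 1 l := by
  intro h2
  have ha : star τ.1.1 * τ.1.1 = 1 := congrArg (fun z : Dc => z.1.1) h1
  have hb : star τ.1.2 * τ.1.2 = 1 := congrArg (fun z : Dc => z.1.2) h1
  have hc : Cpt (τ.1.1 - τ.1.2) := τ.2
  have hc' : Cpt (τ.1.2 - τ.1.1) := by
    have := hc.neg
    rwa [neg_sub] at this
  have hP := P_ne_zero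
  have e11 : star (So 1) * So 1 = 1 := gensH.h11
  have e12 : star (So 1) * So 2 = 0 := gensH.h12
  fin_cases l
  · have hA : τ.1.1 * star τ.1.1 = So 1 * star (So 1) := congrArg (fun z : Dc => z.1.1) h2
    have hB : τ.1.2 * star τ.1.2 = So 1 * star (So 1) - So 1 * Eo * star (So 1) :=
      congrArg (fun z : Dc => z.1.2) h2
    have hle : τ.1.1 * star τ.1.1 * τ.1.2 = τ.1.2 := by
      have h3 : τ.1.1 * star τ.1.1 * (τ.1.2 * star τ.1.2) = τ.1.2 * star τ.1.2 := by
        rw [hA, hB]
        calc So 1 * star (So 1) * (So 1 * star (So 1) - So 1 * Eo * star (So 1))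
            = So 1 * (star (So 1) * So 1) * star (So 1)
              - So 1 * (star (So 1) * So 1) * Eo * star (So 1) := by noncomm_ring
          _ = _ := by rw [e11, mul_one]
      calc τ.1.1 * star τ.1.1 * τ.1.2
          = τ.1.1 * star τ.1.1 * (τ.1.2 * (star τ.1.2 * τ.1.2)) := by rw [hb, mul_one]
        _ = (τ.1.1 * star τ.1.1 * (τ.1.2 * star τ.1.2)) * τ.1.2 := by noncomm_ring
        _ = τ.1.2 * (star τ.1.2 * τ.1.2) := by rw [h3, mul_assoc]
        _ = τ.1.2 := by rw [hb, mul_one]
    have h4 := range_proj_eq ha hb hc hle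
    rw [hA, hB] at h4
    apply hP
    have h5 := sub_eq_self.1 h4.symm
    exact h5
  · have hA : τ.1.1 * star τ.1.1 = So 2 * star (So 2) := congrArg (fun z : Dc => z.1.1) h2
    have hB : τ.1.2 * star τ.1.2 = So 2 * star (So 2) + So 1 * Eo * star (So 1) :=
      congrArg (fun z : Dc => z.1.2) h2
    have e22 : star (So 2) * So 2 = 1 := gensH.h22
    have hle : τ.1.2 * star τ.1.2 * τ.1.1 = τ.1.1 := by
      have h3 : τ.1.2 * star τ.1.2 * (τ.1.1 * star τ.1.1) = τ.1.1 * star τ.1.1 := by
        rw [hA, hB]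
        calc (So 2 * star (So 2) + So 1 * Eo * star (So 1)) * (So 2 * star (So 2))
            = So 2 * (star (So 2) * So 2) * star (So 2)
              + So 1 * Eo * (star (So 1) * So 2) * star (So 2) := by noncomm_ring
          _ = _ := by rw [e22, e12, mul_one, mul_zero, zero_mul, add_zero]
      calc τ.1.2 * star τ.1.2 * τ.1.1
          = τ.1.2 * star τ.1.2 * (τ.1.1 * (star τ.1.1 * τ.1.1)) := by rw [ha, mul_one]
        _ = (τ.1.2 * star τ.1.2 * (τ.1.1 * star τ.1.1)) * τ.1.1 := by noncomm_ring
        _ = τ.1.1 * (star τ.1.1 * τ.1.1) := by rw [h3, mul_assoc]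
        _ = τ.1.1 := by rw [ha, mul_one]
    have h4 := range_proj_eq hb ha hc' hle
    rw [hA, hB] at h4
    apply hP
    have h5 := add_eq_left.1 h4
    exact h5

/-! ### automorphisms of the coefficient algebra -/

/-- the two isometries with orthogonal ranges -/
def t1 : Dc := ⟨(So 1, So 1), diag_mem _⟩
/-- the two isometries with orthogonal ranges -/
def t2 : Dc := ⟨(So 2, So 2), diag_mem _⟩

lemma t11 : star t1 * t1 = 1 := by
  apply Subtype.ext
  ext1
  · exact gensH.h11
  · exact gensH.h11
lemma t22 : star t2 * t2 = 1 := by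
  apply Subtype.ext
  ext1
  · exact gensH.h22
  · exact gensH.h22
lemma t12 : star t1 * t2 = 0 := by
  apply Subtype.ext
  ext1
  · exact gensH.h12
  · exact gensH.h12
lemma t1_q : t1 * star t1 = datc.q 0 0 := rfl

section aut

variable (γ : Alg Dc ≃⋆ₐ[ℂ] Alg Dc)

lemma aut_snd (x : Dc) : (γ (x, 0)).2 = 0 := by
  ext1 l
  show (γ (x, 0)).2 l = 0
  have hmul : ∀ x y : Dc, (γ (x * y, 0)).2 l = (γ (x, 0)).2 l * (γ (y, 0)).2 l := by
    intro x y
    have h : ((x * y, 0) : Alg Dc) = (x, 0) * (y, 0) := by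
      ext1
      · rfl
      · simp
    rw [h, map_mul]
    rfl
  have h0 : (γ ((0 : Dc), 0)).2 l = 0 := by
    have h : (((0 : Dc), 0) : Alg Dc) = 0 := rfl
    rw [h, map_zero]
    rfl
  have h11 := hmul (star t1) t1
  have h22 := hmul (star t2) t2
  have h12 := hmul (star t1) t2
  rw [t11] at h11
  rw [t22] at h22
  rw [t12, h0] at h12
  have h1 : (γ ((1 : Dc), 0)).2 l = 0 := by
    rcases mul_eq_zero.1 h12.symm with h | h
    · rw [h11, h, zero_mul]
    · rw [h22, h, mul_zero]
  have h2 := hmul x 1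
  rw [mul_one, h1, mul_zero] at h2
  exact h2

lemma aut_unit_mul : γ ((1 : Dc), 0) * ((1 : Dc), 0) = γ ((1 : Dc), 0) := by
  have h := aut_snd γ 1
  ext1
  · simp
  · rw [Prod.snd_mul, h, zero_mul]

lemma aut_unit : γ ((1 : Dc), 0) = ((1 : Dc), 0) := by
  have h1 := aut_unit_mul γ
  have h2 := congrArg γ (aut_unit_mul γ.symm)
  rw [map_mul, StarAlgEquiv.apply_symm_apply] at h2
  have h3 : γ ((1 : Dc), 0) * ((1 : Dc), 0) = ((1 : Dc), 0) * γ ((1 : Dc), 0) := by
    ext1
    · simp
    · simp
  rw [← h1, h3, h2]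

lemma aut_fst_zero (c : Fin 2 → ℂ) : (γ ((0 : Dc), c)).1 = 0 := by
  have h : (((0 : Dc), c) : Alg Dc) * ((1 : Dc), 0) = 0 := by
    ext1
    · simp
    · simp
  have h2 := congrArg γ h
  rw [map_mul, aut_unit, map_zero] at h2
  have h3 := congrArg Prod.fst h2
  rw [Prod.fst_mul, mul_one] at h3
  exact h3

/-- an automorphism permutes the two scalar summands -/
lemma aut_perm : ∃ l : Fin 2, γ ((0 : Dc), Pi.single 0 1) = ((0 : Dc), Pi.single l 1) := by
  set f : Alg Dc := ((0 : Dc), Pi.single 0 1) with hf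
  have hff : f * f = f := by
    ext1
    · simp [hf]
    · ext1 l
      simp only [hf, Prod.snd_mul, Pi.mul_apply]
      fin_cases l <;> simp
  have hg : γ f * γ f = γ f := by rw [← map_mul, hff]
  have h1 : (γ f).1 = 0 := aut_fst_zero γ _
  have h2 : ∀ l, (γ f).2 l = 0 ∨ (γ f).2 l = 1 := by
    intro l
    have h3 : (γ f).2 l * (γ f).2 l = (γ f).2 l := by
      have := congrArg (fun z : Alg Dc => z.2 l) hg
      exact this
    have h4 : (γ f).2 l * ((γ f).2 l - 1) = 0 := by
      rw [mul_sub, h3, mul_one, sub_self]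
    rcases mul_eq_zero.1 h4 with h | h
    · exact Or.inl h
    · exact Or.inr (sub_eq_zero.1 h)
  rcases h2 0 with h0 | h0 <;> rcases h2 1 with h3 | h3
  · exfalso
    have h4 : γ f = 0 := by
      ext1
      · exact h1
      · ext1 l
        fin_cases l
        · exact h0
        · exact h3
    have h5 : f = 0 := by
      have := (map_eq_zero_iff γ (EquivLike.injective γ)).1 h4
      exact this
    have h6 : f.2 0 = 0 := by rw [h5]; rfl
    simp [hf] at h6
  · refine ⟨1, ?_⟩
    ext1
    · exact h1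
    · ext1 l
      fin_cases l
      · simpa using h0
      · simpa using h3
  · refine ⟨0, ?_⟩
    ext1
    · exact h1
    · ext1 l
      fin_cases l
      · simpa using h0
      · simpa using h3
  · exfalso
    have h4 : γ f = γ (1 - ((1 : Dc), 0)) := by
      rw [map_sub, map_one, aut_unit]
      ext1
      · rw [h1]
        simp
      · ext1 l
        fin_cases l
        · simpa using h0
        · simpa using h3
    have h5 : f = 1 - ((1 : Dc), 0) := EquivLike.injective γ h4
    have h6 : f.2 1 = (1 - ((1 : Dc), 0) : Alg Dc).2 1 := by rw [← h5]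
    simp [hf] at h6

/-- the two endomorphisms are not unitarily equivalent up to an automorphism -/
theorem no_equiv (u : Alg Dc) (hu : star u * u = 1)
    (h : ∀ a, endo datc 1 (γ a) * u = u * γ (endo datc 0 a)) (hu' : u * star u = 1) : False := by
  obtain ⟨l, hl⟩ := aut_perm γ
  have h1 := h ((0 : Dc), Pi.single 0 1)
  have h2 : endo datc 1 (γ ((0 : Dc), Pi.single 0 1)) =
      u * γ (endo datc 0 ((0 : Dc), Pi.single 0 1)) * star u := by
    rw [← h1, mul_assoc, hu', mul_one]
  have h3 := congrArg Prod.fst h2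
  rw [hl, endo_fst] at h3
  have h4 : datc.s * ((0 : Dc), (Pi.single l 1 : Fin 2 → ℂ)).1 * star datc.s +
      (((0 : Dc), (Pi.single l 1 : Fin 2 → ℂ)).2 0 • datc.q 1 0 +
        ((0 : Dc), (Pi.single l 1 : Fin 2 → ℂ)).2 1 • datc.q 1 1) = datc.q 1 l := by
    fin_cases l <;> simp
  rw [h4] at h3
  have h5 : endo datc 0 ((0 : Dc), Pi.single 0 1) =
      ((datc.q 0 0, 0) : Alg Dc) + ((0 : Dc), Pi.single 0 1) := by
    ext1
    · rw [endo_fst]
      simp
    · rw [endo_snd]
      simp
  have h6 : ((datc.q 0 0, 0) : Alg Dc) = (t1, 0) * star (t1, 0) := by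
    ext1
    · rw [Prod.fst_mul, Prod.fst_star, t1_q]
    · simp
  rw [h5, map_add, h6, map_mul, map_star, Prod.fst_mul, Prod.fst_mul, Prod.fst_add, aut_fst_zero,
    add_zero, Prod.fst_mul, Prod.fst_star, Prod.fst_star] at h3
  have h7 : star (γ (t1, 0)).1 * (γ (t1, 0)).1 = 1 := by
    have h8 : star ((t1, 0) : Alg Dc) * (t1, 0) = ((1 : Dc), 0) := by
      ext1
      · rw [Prod.fst_mul, Prod.fst_star, t11]
      · simp
    have h9 := congrArg γ h8
    rw [map_mul, map_star, aut_unit] at h9
    exact congrArg Prod.fst h9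
  have h8 : star u.1 * u.1 = 1 := congrArg Prod.fst hu
  refine no_isometry (u.1 * (γ (t1, 0)).1) ?_ l ?_
  · rw [star_mul]
    calc star (γ (t1, 0)).1 * star u.1 * (u.1 * (γ (t1, 0)).1)
        = star (γ (t1, 0)).1 * (star u.1 * u.1) * (γ (t1, 0)).1 := by
          simp only [mul_assoc]
      _ = 1 := by rw [h8, mul_one, h7]
  · rw [h3, star_mul]
    simp only [mul_assoc]

end aut

end

end Pool.Agent.Lib.MP_4b5f87_an
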