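import Pool.Agent.Lib.MP_4b5f87_an.Inject

set_option autoImplicit false
set_option linter.unusedSectionVars false
set_option linter.deprecated false

/-!
The two generators generate the same algebra.
-/

namespace Pool.Agent.Lib.MP_4b5f87_an

open scoped ENNReal Topology

noncomputable section

section smooth

variable {R : Type*} [NormedRing R]

/-- `3 x ^ 2 - 2 x ^ 3` -/
def sm (x : R) : R := x ^ 2 + x ^ 2 + x ^ 2 - (x ^ 3 + x ^ 3)

lemma sm_one_sub (x : R) : 1 - sm x = sm (1 - x) := by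
  unfold sm
  noncomm_ring

lemma sm_mul_proj {x P : R} (h : Commute x P) (hP : P * P = P) : sm x * P = sm (x * P) := by
  have h2 : (x * P) ^ 2 = x ^ 2 * P := by
    rw [h.mul_pow, pow_two P, hP]
  have h3 : (x * P) ^ 3 = x ^ 3 * P := by
    rw [h.mul_pow, pow_succ P 2, pow_two P, hP, hP]
  unfold sm
  rw [h2, h3]
  simp only [sub_mul, add_mul]

lemma sm_commute {x P : R} (h : Commute x P) : Commute (sm x) P := by
  unfold sm
  exact ((h.pow_left 2).add_left (h.pow_left 2)).add_left (h.pow_left 2) |>.sub_left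
    ((h.pow_left 3).add_left (h.pow_left 3))

lemma norm_sm_le {x : R} {r : ℝ} (hx : ‖x‖ ≤ r) (hr : r ≤ 1 / 8) : ‖sm x‖ ≤ r * (1 / 2) := by
  have h0 : 0 ≤ r := (norm_nonneg x).trans hx
  have h2 : ‖x ^ 2‖ ≤ r ^ 2 := by
    rw [pow_two, pow_two]
    exact (norm_mul_le _ _).trans (mul_le_mul hx hx (norm_nonneg _) h0)
  have h3 : ‖x ^ 3‖ ≤ r ^ 3 := by
    rw [pow_succ, pow_succ r]
    exact (norm_mul_le _ _).trans (mul_le_mul h2 hx (norm_nonneg _) (by positivity))
  have h4 : ‖sm x‖ ≤ ‖x ^ 2‖ + ‖x ^ 2‖ + ‖x ^ 2‖ + (‖x ^ 3‖ + ‖x ^ 3‖) := by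
    unfold sm
    refine (norm_sub_le _ _).trans (add_le_add ?_ (norm_add_le _ _))
    exact (norm_add_le _ _).trans (add_le_add (norm_add_le _ _) le_rfl)
  nlinarith [mul_nonneg h0 h0, mul_nonneg (mul_nonneg h0 h0) h0,
    mul_nonneg h0 (by linarith : 0 ≤ 1 / 8 - r),
    mul_nonneg (mul_nonneg h0 h0) (by linarith : 0 ≤ 1 / 8 - r)]

lemma norm_sm_iterate_le {x : R} (hx : ‖x‖ ≤ 1 / 8) (n : ℕ) :
    ‖sm^[n] x‖ ≤ (1 / 8) * (1 / 2) ^ n := by
  induction n with
  | zero => simpa using hx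
  | succ n ih =>
    rw [Function.iterate_succ_apply', pow_succ, ← mul_assoc]
    refine norm_sm_le ih ?_
    have : (1 / 2 : ℝ) ^ n ≤ 1 := pow_le_one₀ (by norm_num) (by norm_num)
    linarith

lemma sm_iterate_tendsto {x : R} (hx : ‖x‖ ≤ 1 / 8) :
    Filter.Tendsto (fun n => sm^[n] x) Filter.atTop (𝓝 0) := by
  refine squeeze_zero_norm (norm_sm_iterate_le hx) ?_
  have := (tendsto_pow_atTop_nhds_zero_of_lt_one (r := (1 / 2 : ℝ)) (by norm_num)
    (by norm_num)).const_mul (1 / 8 : ℝ)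
  simpa using this

lemma sm_iterate_commute {x P : R} (h : Commute x P) (n : ℕ) : Commute (sm^[n] x) P := by
  induction n with
  | zero => exact h
  | succ n ih =>
    rw [Function.iterate_succ_apply']
    exact sm_commute ih

lemma sm_iterate_mul_proj {x P : R} (h : Commute x P) (hP : P * P = P) (n : ℕ) :
    sm^[n] x * P = sm^[n] (x * P) := by
  induction n with
  | zero => rfl
  | succ n ih =>
    rw [Function.iterate_succ_apply', Function.iterate_succ_apply',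
      sm_mul_proj (sm_iterate_commute h n) hP, ih]

lemma sm_iterate_one_sub (x : R) (n : ℕ) : 1 - sm^[n] x = sm^[n] (1 - x) := by
  induction n with
  | zero => rfl
  | succ n ih =>
    rw [Function.iterate_succ_apply', Function.iterate_succ_apply', ← ih, sm_one_sub]

end smooth

section same

variable {G : Type*} [NormedAddCommGroup G] [InnerProductSpace ℂ G] [CompleteSpace G]
variable {D : Type*} [CStarAlgebra D] (d : Dat D) (π : D →⋆ₐ[ℂ] (G →L[ℂ] G))

lemma Zop_mem (b : Fin 2) : (Zop : L2 Idx G →L[ℂ] L2 Idx G) ∈ algb d π b := by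
  have h : (Zop : L2 Idx G →L[ℂ] L2 Idx G) = gen d π b * PiR π (vv d) + bv b • 1 := by
    rw [gen_mul_PiR_vv, sub_add_cancel]
  rw [h]
  exact Subalgebra.add_mem _ (Subalgebra.mul_mem _ (gen_mem d π b) (PiR_mem d π b _))
    (Subalgebra.smul_mem _ (Subalgebra.one_mem _) _)

lemma YW_mem (b : Fin 2) : YT (fun j l => π (d.W b j l)) ∈ algb d π b := by
  have h : YT (fun j l => π (d.W b j l)) =
      gen d π b - gen d π b * PiR π (vv d) * PiR π (star (vv d)) := by
    rw [gen_mul_PiR_vv]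
    rw [gen]
    abel
  rw [h]
  exact Subalgebra.sub_mem _ (gen_mem d π b)
    (Subalgebra.mul_mem _ (Subalgebra.mul_mem _ (gen_mem d π b) (PiR_mem d π b _))
      (PiR_mem d π b _))

/-- indicator of the level-one part at base point `j` -/
def pj (j : Fin 2) : Idx → ℂ
  | .vac _ _ => 0
  | .one j' _ _ _ => if j' = j then 1 else 0

lemma norm_pj_le (j : Fin 2) (k : Idx) : ‖pj j k‖ ≤ 1 := by
  rcases k with ⟨a, n⟩ | ⟨j', l, m, n⟩
  · simp [pj]
  · simp only [pj]
    split_ifs <;> simp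

/-- projection onto the level-one part at base point `j` -/
def Pj (j : Fin 2) : L2 Idx G →L[ℂ] L2 Idx G := dscal (pj j) 1 zero_le_one (norm_pj_le j)

lemma Pj_apply (j : Fin 2) (ξ : L2 Idx G) (k : Idx) : Pj j ξ k = pj j k • ξ k := rfl

lemma pj_vac (j : Fin 2) (a : Option (Fin 2)) (n : ℕ) : pj j (.vac a n) = 0 := rfl
lemma pj_one (j j' l : Fin 2) (m n : ℕ) : pj j (.one j' l m n) = if j' = j then 1 else 0 := rfl

lemma Pj_mul_self (j : Fin 2) : (Pj j * Pj j : L2 Idx G →L[ℂ] L2 Idx G) = Pj j := by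
  ext ξ k
  rw [ContinuousLinearMap.mul_apply, Pj_apply, Pj_apply, smul_smul]
  congr 1
  rcases k with ⟨a, n⟩ | ⟨j', l, m, n⟩
  · simp [pj]
  · simp only [pj]
    split_ifs <;> simp

lemma Zop_Pj (j : Fin 2) : Commute (Zop : L2 Idx G →L[ℂ] L2 Idx G) (Pj j) := by
  rw [commute_iff_eq]
  ext ξ k
  rw [ContinuousLinearMap.mul_apply, ContinuousLinearMap.mul_apply, Pj_apply]
  rcases k with ⟨a, n⟩ | ⟨j', l, m, n⟩
  · rw [pj_vac, zero_smul]
    rcases n with _ | n
    · rw [Zop_vac_zero, Pj_apply, pj_vac, zero_smul, smul_zero]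
    · rw [Zop_vac_succ, Pj_apply, Pj_apply, pj_vac, zero_smul, smul_zero, pj_vac, zero_smul,
        add_zero]
  · rcases m with _ | m
    · rw [Zop_one_zero, Pj_apply, Zop_one_zero, smul_comm]
    · rw [Zop_one_succ, Pj_apply, Pj_apply, Zop_one_succ, smul_add, smul_comm,
        smul_comm (1 / 8 : ℂ)]
      rfl

/-- weights of the level-one shift at base point `j` -/
def wj (j : Fin 2) : Idx → ℂ
  | .vac _ _ => 0
  | .one j' _ _ _ => if j' = j then 1 / 8 else 0

lemma norm_wj_le (j : Fin 2) (k : Idx) : ‖wj j k‖ ≤ 1 / 8 := by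
  rcases k with ⟨a, n⟩ | ⟨j', l, m, n⟩
  · simp [wj]
  · simp only [wj]
    split_ifs
    · norm_num
    · simp

/-- the level-one shift at base point `j` -/
def BSj (j : Fin 2) : L2 Idx G →L[ℂ] L2 Idx G :=
  bop gB gB_pinj (fun k => wj j k • (1 : G →L[ℂ] G)) (1 / 8) (by norm_num)
    (fun k => norm_smul_one_le _ (norm_wj_le j k))

lemma norm_BSj_le (j : Fin 2) : ‖(BSj j : L2 Idx G →L[ℂ] L2 Idx G)‖ ≤ 1 / 8 :=
  norm_bop_le _ _ _ _ _ _

lemma Zop_sub_mul_Pj (j : Fin 2) :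
    (Zop - bv j • 1) * Pj j = (BSj j : L2 Idx G →L[ℂ] L2 Idx G) := by
  ext ξ k
  have h0 : ((Zop - bv j • 1) * Pj j : L2 Idx G →L[ℂ] L2 Idx G) ξ k =
    Zop (Pj j ξ) k - bv j • (Pj j ξ k) := rfl
  rw [h0]
  rcases k with ⟨a, n⟩ | ⟨j', l, m, n⟩
  · have h1 : (BSj j : L2 Idx G →L[ℂ] L2 Idx G) ξ (.vac a n) = 0 := rfl
    rw [h1, Pj_apply, pj_vac, zero_smul, smul_zero, sub_zero]
    rcases n with _ | n
    · rw [Zop_vac_zero, Pj_apply, pj_vac, zero_smul, smul_zero]
    · rw [Zop_vac_succ, Pj_apply, Pj_apply, pj_vac, zero_smul, smul_zero, pj_vac, zero_smul,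
        add_zero]
  · rcases m with _ | m
    · have h1 : (BSj j : L2 Idx G →L[ℂ] L2 Idx G) ξ (.one j' l 0 n) = 0 := rfl
      rw [h1, Zop_one_zero, Pj_apply, pj_one]
      split_ifs with h
      · rw [h, sub_self]
      · rw [zero_smul, smul_zero, smul_zero, sub_zero]
    · have h1 : (BSj j : L2 Idx G →L[ℂ] L2 Idx G) ξ (.one j' l (m + 1) n) =
        (if j' = j then (1 / 8 : ℂ) else 0) • ξ (.one j' l m n) := rfl
      rw [h1, Zop_one_succ, Pj_apply, Pj_apply, pj_one, pj_one]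
      split_ifs with h
      · rw [h, one_smul, one_smul]
        abel
      · simp only [zero_smul, smul_zero, add_zero, sub_zero]

lemma Pj_mul_YT (j : Fin 2) (T : Fin 2 → Fin 2 → (G →L[ℂ] G)) :
    Pj j * YT T = YT (fun j' l => if j' = j then T j' l else 0) := by
  ext ξ k
  rw [ContinuousLinearMap.mul_apply, Pj_apply]
  rcases k with ⟨a, n⟩ | ⟨j', l, m, n⟩
  · rw [YT_vac, YT_vac, smul_zero]
  · rcases m with _ | m
    · rw [YT_one_zero, YT_one_zero, pj_one]
      split_ifs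
      · rw [one_smul]
      · rw [zero_smul]; rfl
    · rw [YT_one_succ, YT_one_succ, smul_zero]

lemma P_sum_YT (T : Fin 2 → Fin 2 → (G →L[ℂ] G)) : Pj 0 * YT T + Pj 1 * YT T = YT T := by
  ext ξ k
  have h0 : (Pj 0 * YT T + Pj 1 * YT T : L2 Idx G →L[ℂ] L2 Idx G) ξ k =
    pj 0 k • YT T ξ k + pj 1 k • YT T ξ k := rfl
  rw [h0]
  rcases k with ⟨a, n⟩ | ⟨j', l, m, n⟩
  · rw [YT_vac, smul_zero, smul_zero, add_zero]
  · rw [pj_one, pj_one]
    fin_cases j' <;> simp

lemma Zn_mem (b : Fin 2) (n : ℕ) : (sm^[n] Zop : L2 Idx G →L[ℂ] L2 Idx G) ∈ algb d π b := by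
  induction n with
  | zero => exact Zop_mem d π b
  | succ n ih =>
    rw [Function.iterate_succ_apply']
    unfold sm
    have h2 := Subalgebra.pow_mem _ ih 2
    have h3 := Subalgebra.pow_mem _ ih 3
    exact Subalgebra.sub_mem _ (Subalgebra.add_mem _ (Subalgebra.add_mem _ h2 h2) h2)
      (Subalgebra.add_mem _ h3 h3)

lemma Zn_tendsto (T : Fin 2 → Fin 2 → (G →L[ℂ] G)) :
    Filter.Tendsto (fun n => (sm^[n] Zop : L2 Idx G →L[ℂ] L2 Idx G) * YT T) Filter.atTop
      (𝓝 (Pj 1 * YT T)) := by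
  have h0 : ‖(Zop : L2 Idx G →L[ℂ] L2 Idx G) * Pj 0‖ ≤ 1 / 8 := by
    have := Zop_sub_mul_Pj (G := G) 0
    rw [bv_zero, zero_smul, sub_zero] at this
    rw [this]
    exact norm_BSj_le 0
  have h1 : ‖(1 - Zop : L2 Idx G →L[ℂ] L2 Idx G) * Pj 1‖ ≤ 1 / 8 := by
    have := Zop_sub_mul_Pj (G := G) 1
    rw [bv_one, one_smul] at this
    have h : (1 - Zop : L2 Idx G →L[ℂ] L2 Idx G) * Pj 1 = -(BSj 1) := by
      rw [← this]
      noncomm_ring
    rw [h, norm_neg]
    exact norm_BSj_le 1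
  have hc1 : Commute (1 - Zop : L2 Idx G →L[ℂ] L2 Idx G) (Pj 1) :=
    (Commute.one_left _).sub_left (Zop_Pj 1)
  have t0 := (sm_iterate_tendsto h0).mul_const (YT T)
  have t1 := (sm_iterate_tendsto h1).mul_const (YT T)
  have t2 := (t0.sub t1).add_const (Pj 1 * YT T)
  simp only [zero_mul, sub_zero, zero_add] at t2
  refine t2.congr (fun n => ?_)
  rw [← sm_iterate_mul_proj (Zop_Pj 0) (Pj_mul_self 0), ← sm_iterate_mul_proj hc1 (Pj_mul_self 1),
    ← sm_iterate_one_sub]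
  have h5 : (sm^[n] Zop : L2 Idx G →L[ℂ] L2 Idx G) * YT T =
      (sm^[n] Zop : L2 Idx G →L[ℂ] L2 Idx G) * (Pj 0 * YT T + Pj 1 * YT T) := by rw [P_sum_YT]
  rw [h5]
  noncomm_ring

lemma P1Y_mem (b : Fin 2) : Pj 1 * YT (fun j l => π (d.W b j l)) ∈ algb d π b := by
  have h : Pj 1 * YT (fun j l => π (d.W b j l)) ∈
      (algb d π b : Set (L2 Idx G →L[ℂ] L2 Idx G)) := by
    refine (isClosed_algb d π b).mem_of_tendsto (Zn_tendsto _) (Filter.Eventually.of_forall ?_)
    intro n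
    exact Subalgebra.mul_mem _ (Zn_mem d π b n) (YW_mem d π b)
  exact h

lemma PjY_mem (b j : Fin 2) : Pj j * YT (fun j l => π (d.W b j l)) ∈ algb d π b := by
  fin_cases j
  · have h := P_sum_YT (fun j l => π (d.W b j l))
    have h2 : Pj 0 * YT (fun j l => π (d.W b j l)) =
        YT (fun j l => π (d.W b j l)) - Pj 1 * YT (fun j l => π (d.W b j l)) := by
      rw [eq_sub_iff_add_eq, h]
    simp only [Fin.zero_eta]
    rw [h2]
    exact Subalgebra.sub_mem _ (YW_mem d π b) (P1Y_mem d π b)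
  · exact P1Y_mem d π b

lemma PjY_change (b b' j : Fin 2) :
    Pj j * YT (fun j l => π (d.W b' j l)) =
      Pj j * YT (fun j l => π (d.W b j l)) * PiR π (d.c b b' j, 0) := by
  rw [Pj_mul_YT, Pj_mul_YT, YT_mul_PiR]
  congr 1
  ext1 j'
  ext1 l
  by_cases h : j' = j
  · rw [if_pos h, if_pos h, h, ← map_mul, d.W_mul_c]
  · rw [if_neg h, if_neg h, zero_mul]

lemma YW_mem' (b b' : Fin 2) : YT (fun j l => π (d.W b' j l)) ∈ algb d π b := by
  rw [← P_sum_YT, PjY_change d π b b' 0, PjY_change d π b b' 1]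
  exact Subalgebra.add_mem _
    (Subalgebra.mul_mem _ (PjY_mem d π b 0) (PiR_mem d π b _))
    (Subalgebra.mul_mem _ (PjY_mem d π b 1) (PiR_mem d π b _))

lemma gen_mem' (b b' : Fin 2) : gen d π b' ∈ algb d π b := by
  rw [gen]
  exact Subalgebra.add_mem _
    (Subalgebra.mul_mem _ (Subalgebra.sub_mem _ (Zop_mem d π b)
      (Subalgebra.smul_mem _ (Subalgebra.one_mem _) _)) (PiR_mem d π b _))
    (YW_mem' d π b b')

lemma algb_le_algb (b b' : Fin 2) : algb d π b' ≤ algb d π b :=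
  algb_le d π (isClosed_algb d π b) (PiR_mem d π b) (gen_mem' d π b b')

/-- both generators generate the same closed algebra -/
theorem algb_eq (b b' : Fin 2) : algb d π b' = algb d π b :=
  le_antisymm (algb_le_algb d π b b') (algb_le_algb d π b' b)

end same

end

end Pool.Agent.Lib.MP_4b5f87_an
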